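import Pool.Agent.Work.MP_3bf421_lc_SW.Fixed

set_option autoImplicit false

/-!
The generic `D`-dimensional rigidity matroid satisfies the two conditions of the sandwich theorem.
-/

namespace Pool.Agent.Work.MP_3bf421_lc_SW

open Finset

/-- row of the rigidity matrix of the bar `ab` at the placement `p` -/
def bar (D : ℕ) (p : ℕ → Fin D → ℝ) (a b : ℕ) : ℕ → Fin D → ℝ :=
  fun x k => (if x = a then p a k - p b k else 0) + (if x = b then p b k - p a k else 0)

/-- independence in the generic `D`-dimensional rigidity matroid of the bars `u e`, `v e` -/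
def GenericIndep (D : ℕ) {n : ℕ} (u v : Fin n → ℕ) (F : Finset (Fin n)) : Prop :=
  ∃ p : ℕ → Fin D → ℝ, LinearIndependent ℝ (fun e : F => bar D p (u e) (v e))

/-- points on the moment curve: `p z - p y` for distinct `y ≠ z`, at most `D` of them, are
independent -/
theorem moment_indep {ι : Type*} [DecidableEq ι] (D : ℕ) (z : ℕ) (s : Finset ι) (y : ι → ℕ)
    (hy : Set.InjOn y s) (hz : ∀ i ∈ s, y i ≠ z) (hs : s.card ≤ D) (c : ι → ℝ)
    (h : ∀ k : Fin D, ∑ i ∈ s, c i * ((z : ℝ) ^ (k.val + 1) - (y i : ℝ) ^ (k.val + 1)) = 0) :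
    ∀ i ∈ s, c i = 0 := by
  intro i hi
  -- vanishing for all polynomials of degree at most D
  have hpoly : ∀ q : Polynomial ℝ, q.natDegree ≤ D →
      ∑ j ∈ s, c j * (q.eval (z : ℝ) - q.eval (y j : ℝ)) = 0 := by
    intro q hq
    have h1 : ∀ a : ℝ, q.eval a = ∑ k ∈ range (D + 1), q.coeff k * a ^ k := fun a =>
      Polynomial.eval_eq_sum_range' (by omega) a
    have h2 : ∀ j ∈ s, c j * (q.eval (z : ℝ) - q.eval (y j : ℝ)) =
        ∑ k ∈ range (D + 1), q.coeff k * (c j * ((z : ℝ) ^ k - (y j : ℝ) ^ k)) := by
      intro j _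
      rw [h1, h1, ← sum_sub_distrib, mul_sum]
      apply sum_congr rfl
      intro k _
      ring
    rw [sum_congr rfl h2, sum_comm]
    apply sum_eq_zero
    intro k hk
    rw [← mul_sum]
    rcases Nat.eq_zero_or_pos k with h0 | h0
    · subst h0
      simp
    · have hk' : k - 1 < D := by have := mem_range.1 hk; omega
      have := h ⟨k - 1, hk'⟩
      simp only at this
      rw [Nat.sub_add_cancel h0] at this
      rw [this, mul_zero]
  set q : Polynomial ℝ := (Polynomial.X - Polynomial.C (z : ℝ)) *
    ∏ j ∈ s.erase i, (Polynomial.X - Polynomial.C (y j : ℝ)) with hq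
  have hdeg : q.natDegree ≤ D := by
    rw [hq]
    refine (Polynomial.natDegree_mul_le).trans ?_
    have h1 : (∏ j ∈ s.erase i, (Polynomial.X - Polynomial.C (y j : ℝ))).natDegree ≤ (s.erase i).card := by
      refine (Polynomial.natDegree_prod_le _ _).trans ?_
      refine (sum_le_sum (g := fun _ => 1) (fun j _ => ?_)).trans (by simp)
      exact Polynomial.natDegree_X_sub_C_le _
    have h2 := Polynomial.natDegree_X_sub_C_le (z : ℝ)
    have h3 := card_erase_of_mem hi
    have h4 : 0 < s.card := card_pos.2 ⟨i, hi⟩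
    omega
  have h5 := hpoly q hdeg
  rw [sum_eq_single i] at h5
  · have h6 : q.eval (z : ℝ) = 0 := by simp [hq]
    have h7 : q.eval (y i : ℝ) ≠ 0 := by
      rw [hq, Polynomial.eval_mul, Polynomial.eval_prod]
      apply mul_ne_zero
      · simp only [Polynomial.eval_sub, Polynomial.eval_X, Polynomial.eval_C]
        rw [sub_ne_zero]
        exact_mod_cast hz i hi
      · rw [prod_ne_zero_iff]
        intro j hj
        simp only [Polynomial.eval_sub, Polynomial.eval_X, Polynomial.eval_C]
        rw [sub_ne_zero]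
        intro h
        have h8 : y i = y j := by exact_mod_cast h
        exact (mem_erase.1 hj).1 (hy (mem_erase.1 hj).2 hi h8.symm)
    rw [h6, zero_sub, mul_neg, neg_eq_zero] at h5
    rcases mul_eq_zero.1 h5 with h8 | h8
    · exact h8
    · exact absurd h8 h7
  · intro j hj hji
    have h6 : q.eval (z : ℝ) = 0 := by simp [hq]
    have h7 : q.eval (y j : ℝ) = 0 := by
      rw [hq, Polynomial.eval_mul, Polynomial.eval_prod]
      rw [prod_eq_zero (mem_erase.2 ⟨hji, hj⟩) (by simp), mul_zero]
    rw [h6, h7]; ring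
  · intro h'; exact absurd hi h'

open Classical in
/-- degenerate sets of bars are independent -/
theorem rigid_deg (D : ℕ) {n : ℕ} (u v : Fin n → ℕ) (huv : ∀ e, u e ≠ v e)
    (hsimple : ∀ e f, ({u e, v e} : Finset ℕ) = {u f, v f} → e = f) (F : Finset (Fin n))
    (π : ℕ → ℕ) (hπ : Function.Injective π)
    (hF : ∀ x, (F.filter (fun e => IsLast π {u e, v e} x)).card ≤ D) :
    GenericIndep D u v F := by
  set p : ℕ → Fin D → ℝ := fun x k => (x : ℝ) ^ (k.val + 1) with hp
  refine ⟨p, ?_⟩
  rw [Fintype.linearIndependent_iff]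
  intro g hg
  -- coefficients on all of Fin n
  set c : Fin n → ℝ := fun e => if h : e ∈ F then g ⟨e, h⟩ else 0 with hc
  have hsum : ∀ (x : ℕ) (k : Fin D), ∑ e ∈ F, c e * bar D p (u e) (v e) x k = 0 := by
    intro x k
    have h1 := congrFun (congrFun hg x) k
    rw [Finset.sum_apply, Finset.sum_apply] at h1
    rw [← sum_coe_sort F]
    refine Eq.trans (sum_congr rfl fun e _ => ?_) h1
    simp [hc]
  suffices hall : ∀ e ∈ F, c e = 0 by
    intro e
    have := hall e.1 e.2
    simpa [hc, e.2] using this
  by_contra hne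
  push Not at hne
  obtain ⟨e1, he1, hce1⟩ := hne
  -- last label of each bar
  have hlast : ∀ e : Fin n, ∃ x, IsLast π ({u e, v e} : Finset ℕ) x := fun e =>
    exists_isLast π (by simp)
  choose L hL using hlast
  obtain ⟨e0, he0, hmax⟩ := exists_max_image (F.filter (fun e => c e ≠ 0)) (fun e => π (L e))
    ⟨e1, mem_filter.2 ⟨he1, hce1⟩⟩
  rw [mem_filter] at he0
  set z := L e0 with hz
  -- the bars with last label z
  set s := F.filter (fun e => L e = z) with hs
  set y : Fin n → ℕ := fun e => if u e = z then v e else u e with hy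
  have hbarz : ∀ e ∈ s, ∀ k : Fin D, bar D p (u e) (v e) z k = (z : ℝ) ^ (k.val + 1) - (y e : ℝ) ^ (k.val + 1) := by
    intro e he k
    have hze : z ∈ ({u e, v e} : Finset ℕ) := by
      have := (hL e).1
      rwa [(mem_filter.1 he).2] at this
    rw [mem_insert, mem_singleton] at hze
    unfold bar
    by_cases h1 : u e = z
    · have h2 : z ≠ v e := fun h => huv e (h1.trans h)
      rw [if_pos h1.symm, if_neg h2, add_zero, hy]
      simp only [h1, if_true, hp]
    · have h2 : z = v e := by
        rcases hze with h | h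
        · exact absurd h.symm h1
        · exact h
      rw [if_neg (fun h => h1 h.symm), if_pos h2, zero_add, hy]
      simp only [if_neg h1, hp, ← h2]
  have hother : ∀ e ∈ F, e ∉ s → ∀ k : Fin D, c e * bar D p (u e) (v e) z k = 0 := by
    intro e he hes k
    by_cases hzS : z ∈ ({u e, v e} : Finset ℕ)
    · -- the last label is later than z, hence the coefficient vanishes
      by_cases hce : c e = 0
      · rw [hce, zero_mul]
      · exfalso
        have h1 : π z ≤ π (L e) := (hL e).2 z hzS
        have h2 : π (L e) ≤ π z := hmax e (mem_filter.2 ⟨he, hce⟩)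
        have h3 : L e = z := hπ (le_antisymm h2 h1)
        exact hes (mem_filter.2 ⟨he, h3⟩)
    · rw [mem_insert, mem_singleton, not_or] at hzS
      unfold bar
      rw [if_neg hzS.1, if_neg hzS.2]
      ring
  have hzero : ∀ k : Fin D, ∑ e ∈ s, c e * ((z : ℝ) ^ (k.val + 1) - (y e : ℝ) ^ (k.val + 1)) = 0 := by
    intro k
    rw [← hsum z k]
    symm
    rw [← sum_subset (filter_subset _ _ : s ⊆ F) (fun e he hes => hother e he hes k)]
    exact sum_congr rfl fun e he => by rw [hbarz e he k]
  have hmem : ∀ e ∈ s, ({u e, v e} : Finset ℕ) = {z, y e} := by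
    intro e he
    have hze : z ∈ ({u e, v e} : Finset ℕ) := by
      have := (hL e).1
      rwa [(mem_filter.1 he).2] at this
    rw [mem_insert, mem_singleton] at hze
    by_cases h1 : u e = z
    · rw [hy]; simp only [h1, if_true]
    · have h2 : z = v e := by
        rcases hze with h | h
        · exact absurd h.symm h1
        · exact h
      have hye : y e = u e := by simp [hy, h1]
      rw [hye, h2, pair_comm]
  have hyinj : Set.InjOn y s := by
    intro a ha b hb hab
    apply hsimple
    rw [hmem a ha, hmem b hb, hab]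
  have hyz : ∀ e ∈ s, y e ≠ z := by
    intro e he hye
    by_cases h1 : u e = z
    · have : y e = v e := by simp [hy, h1]
      exact huv e (by rw [h1, ← hye, this])
    · have : y e = u e := by simp [hy, h1]
      exact h1 (this ▸ hye)
  have hcard : s.card ≤ D := by
    refine le_trans (card_le_card ?_) (hF z)
    intro e he
    have h1 := mem_filter.1 he
    refine mem_filter.2 ⟨h1.1, ?_⟩
    have := hL e
    rwa [h1.2] at this
  have := moment_indep D z s y hyinj hyz hcard c hzero e0 (mem_filter.2 ⟨he0.1, rfl⟩)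
  exact he0.2 this

/-- a linearly independent family with block supports has an orientation with at most `D`
elements per label -/
theorem linear_orient (D : ℕ) {n : ℕ} (S : Fin n → Finset ℕ) (x : Fin n → ℕ → Fin D → ℝ)
    (hx : ∀ e, ∀ y, y ∉ S e → x e y = 0) (I : Finset (Fin n))
    (hI : LinearIndependent ℝ (fun e : I => x e)) :
    ∃ φ : Fin n → ℕ, (∀ e ∈ I, φ e ∈ S e) ∧ ∀ v, (I.filter (fun e => φ e = v)).card ≤ D := by
  classical
  set t : {e // e ∈ I} → Finset (ℕ × Fin D) := fun e => S e.1 ×ˢ univ with ht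
  have hall : ∀ J : Finset {e // e ∈ I}, J.card ≤ (J.biUnion t).card := by
    intro J
    set V : Finset ℕ := J.biUnion (fun e => S e.1) with hV
    have h1 : J.biUnion t = V ×ˢ univ := by
      ext ⟨a, k⟩
      simp [ht, hV]
    rw [h1, card_product, card_univ, Fintype.card_fin]
    -- restriction to the labels in V
    set R : (ℕ → Fin D → ℝ) →ₗ[ℝ] (({a // a ∈ V} × Fin D) → ℝ) :=
      { toFun := fun f q => f q.1.1 q.2
        map_add' := fun f g => rfl
        map_smul' := fun c f => rfl } with hR
    have h2 : LinearIndependent ℝ (fun e : {e // e ∈ J} => R (x e.1.1)) := by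
      have h3 : LinearIndependent ℝ (fun e : {e // e ∈ J} => x e.1.1) :=
        hI.comp (fun e : {e // e ∈ J} => e.1) Subtype.val_injective
      rw [Fintype.linearIndependent_iff] at h3 ⊢
      intro g hg
      apply h3 g
      ext a k
      rw [Finset.sum_apply, Finset.sum_apply]
      by_cases ha : a ∈ V
      · have := congrFun hg (⟨a, ha⟩, k)
        rw [Finset.sum_apply] at this
        exact this
      · rw [Pi.zero_apply, Pi.zero_apply]
        apply sum_eq_zero
        intro e _
        have h4 : a ∉ S e.1.1 := fun h => ha (mem_biUnion.2 ⟨e.1, e.2, h⟩)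
        rw [Pi.smul_apply, hx e.1.1 a h4]
        simp
    have h5 := h2.fintype_card_le_finrank
    rw [Fintype.card_coe, Module.finrank_fintype_fun_eq_card, Fintype.card_prod, Fintype.card_coe,
      Fintype.card_fin] at h5
    exact h5
  obtain ⟨f, hf1, hf2⟩ := (Finset.all_card_le_biUnion_card_iff_exists_injective t).1 hall
  refine ⟨fun e => if h : e ∈ I then (f ⟨e, h⟩).1 else 0, ?_, ?_⟩
  · intro e he
    simp only [dif_pos he]
    exact (mem_product.1 (hf2 ⟨e, he⟩)).1
  · intro v
    have h1 : (I.filter (fun e => (if h : e ∈ I then (f ⟨e, h⟩).1 else 0) = v)).card ≤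
        (univ : Finset (Fin D)).card := by
      rcases Nat.eq_zero_or_pos D with h0 | h0
      · subst h0
        rw [card_univ, Fintype.card_fin, Nat.le_zero, card_eq_zero, filter_eq_empty_iff]
        intro e he
        exact (f ⟨e, he⟩).2.elim0
      apply card_le_card_of_injOn (fun e => if h : e ∈ I then (f ⟨e, h⟩).2 else ⟨0, h0⟩)
      · intro e _; exact mem_coe.2 (mem_univ _)
      · intro a ha b hb hab
        rw [mem_coe, mem_filter] at ha hb
        simp only [dif_pos ha.1] at ha hab
        simp only [dif_pos hb.1] at hb hab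
        have h2 : f ⟨a, ha.1⟩ = f ⟨b, hb.1⟩ := Prod.ext (ha.2.trans hb.2.symm) hab
        have h3 := hf1 h2
        exact congrArg Subtype.val h3
    rwa [card_univ, Fintype.card_fin] at h1

theorem rigid_orient (D : ℕ) {n : ℕ} (u v : Fin n → ℕ) (I : Finset (Fin n))
    (hI : GenericIndep D u v I) :
    ∃ φ : Fin n → ℕ, (∀ e ∈ I, φ e ∈ ({u e, v e} : Finset ℕ)) ∧
      ∀ x, (I.filter (fun e => φ e = x)).card ≤ D := by
  obtain ⟨p, hp⟩ := hI
  refine linear_orient D (fun e => {u e, v e}) (fun e => bar D p (u e) (v e)) ?_ I hp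
  intro e y hy
  rw [mem_insert, mem_singleton, not_or] at hy
  funext k
  unfold bar
  rw [if_neg hy.1, if_neg hy.2]
  simp

end Pool.Agent.Work.MP_3bf421_lc_SW
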