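import Pool.Agent.Work.MP_3bf421_lc_SW.Fixed

set_option autoImplicit false

/-!
Labels are renamed by order of first appearance; the random order of the labels is produced
online.
-/

namespace Pool.Agent.Work.MP_3bf421_lc_SW

open Finset

section Appear

variable {n : ℕ}

/-- all labels -/
def labs (S : Fin n → Finset ℕ) : Finset ℕ := univ.biUnion S

theorem mem_labs {S : Fin n → Finset ℕ} {x : ℕ} : x ∈ labs S ↔ ∃ j, x ∈ S j := by
  simp [labs]

/-- first position at which the label `x` appears -/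
noncomputable def first (S : Fin n → Finset ℕ) (x : ℕ) : ℕ := sInf {j | ∃ h : j < n, x ∈ S ⟨j, h⟩}

theorem first_le {S : Fin n → Finset ℕ} {x : ℕ} {j : Fin n} (h : x ∈ S j) : first S x ≤ j.val :=
  Nat.sInf_le ⟨j.2, h⟩

theorem first_spec {S : Fin n → Finset ℕ} {x : ℕ} (h : x ∈ labs S) :
    ∃ h : first S x < n, x ∈ S ⟨first S x, h⟩ := by
  obtain ⟨j, hj⟩ := mem_labs.1 h
  exact Nat.sInf_mem (s := {j | ∃ h : j < n, x ∈ S ⟨j, h⟩}) ⟨j.val, j.2, hj⟩

/-- order of appearance -/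
noncomputable def akey (S : Fin n → Finset ℕ) (x : ℕ) : (ℕ ×ₗ ℕ)ᵒᵈ :=
  OrderDual.toDual (toLex (first S x, x))

theorem akey_injective (S : Fin n → Finset ℕ) : Function.Injective (akey S) := by
  intro a b h
  have h1 : toLex (first S a, a) = toLex (first S b, b) := OrderDual.toDual_inj.1 h
  have h2 : (first S a, a) = (first S b, b) := toLex.injective h1
  exact (Prod.mk.inj h2).2

theorem akey_lt {S : Fin n → Finset ℕ} {u x : ℕ} :
    akey S u < akey S x ↔ first S x < first S u ∨ (first S x = first S u ∧ x < u) := by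
  unfold akey
  rw [OrderDual.toDual_lt_toDual, Prod.Lex.toLex_lt_toLex]

/-- index of the label `u` in the order of appearance -/
noncomputable def idx (S : Fin n → Finset ℕ) (u : ℕ) : ℕ := rk (akey S) (labs S) u

theorem idx_injOn (S : Fin n → Finset ℕ) : Set.InjOn (idx S) (labs S) :=
  rk_injOn (akey_injective S) _

theorem idx_lt {S : Fin n → Finset ℕ} {u : ℕ} (h : u ∈ labs S) : idx S u < (labs S).card :=
  rk_lt_card h

/-- labels after position `i` are hidden -/
def hide (i : Fin n) (S : Fin n → Finset ℕ) : Fin n → Finset ℕ := fun j => if j ≤ i then S j else ∅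

theorem first_hide {S : Fin n → Finset ℕ} {i : Fin n} {x : ℕ} (hx : x ∈ labs S)
    (h : first S x ≤ i.val) : x ∈ labs (hide i S) ∧ first (hide i S) x = first S x := by
  obtain ⟨h1, h2⟩ := first_spec hx
  have h3 : x ∈ hide i S ⟨first S x, h1⟩ := by
    unfold hide
    rw [if_pos (by rw [Fin.le_def]; exact h)]
    exact h2
  refine ⟨mem_labs.2 ⟨_, h3⟩, le_antisymm (first_le h3) ?_⟩
  obtain ⟨h4, h5⟩ := first_spec (mem_labs.2 ⟨_, h3⟩)
  unfold hide at h5
  by_cases hc : (⟨first (fun j => if j ≤ i then S j else ∅) x, h4⟩ : Fin n) ≤ i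
  · rw [if_pos hc] at h5
    exact first_le h5
  · rw [if_neg hc] at h5
    simp at h5

theorem hide_sub {S : Fin n → Finset ℕ} {i : Fin n} {x : ℕ} (hx : x ∈ labs (hide i S)) :
    x ∈ labs S ∧ first S x ≤ i.val := by
  obtain ⟨j, hj⟩ := mem_labs.1 hx
  unfold hide at hj
  by_cases hc : j ≤ i
  · rw [if_pos hc] at hj
    exact ⟨mem_labs.2 ⟨j, hj⟩, (first_le hj).trans (Fin.le_def.1 hc)⟩
  · rw [if_neg hc] at hj
    simp at hj

theorem idx_hide {S : Fin n → Finset ℕ} {i : Fin n} {u : ℕ} (hu : u ∈ labs S)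
    (h : first S u ≤ i.val) : idx (hide i S) u = idx S u := by
  unfold idx rk
  congr 1
  ext x
  rw [mem_filter, mem_filter, akey_lt, akey_lt, (first_hide hu h).2]
  constructor
  · rintro ⟨h1, h2⟩
    obtain ⟨h3, h4⟩ := hide_sub h1
    rw [(first_hide h3 h4).2] at h2
    exact ⟨h3, h2⟩
  · rintro ⟨h1, h2⟩
    have h3 : first S x ≤ i.val := by omega
    obtain ⟨h4, h5⟩ := first_hide h1 h3
    rw [h5]
    exact ⟨h4, h2⟩

open Classical in
/-- the online random order of the labels -/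
noncomputable def prio (M : ℕ) (τ : Equiv.Perm (Fin M)) (S : Fin n → Finset ℕ) (u : ℕ) : ℕ :=
  if h : u ∈ labs S ∧ idx S u < M then (τ ⟨idx S u, h.2⟩).val else M + u

theorem prio_injective (M : ℕ) (τ : Equiv.Perm (Fin M)) (S : Fin n → Finset ℕ) :
    Function.Injective (prio M τ S) := by
  intro a b h
  unfold prio at h
  by_cases ha : a ∈ labs S ∧ idx S a < M
  · by_cases hb : b ∈ labs S ∧ idx S b < M
    · rw [dif_pos ha, dif_pos hb] at h
      have h1 := τ.injective (Fin.ext h)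
      rw [Fin.mk.injEq] at h1
      exact idx_injOn S ha.1 hb.1 h1
    · rw [dif_pos ha, dif_neg hb] at h
      have := (τ ⟨idx S a, ha.2⟩).2
      omega
  · by_cases hb : b ∈ labs S ∧ idx S b < M
    · rw [dif_neg ha, dif_pos hb] at h
      have := (τ ⟨idx S b, hb.2⟩).2
      omega
    · rw [dif_neg ha, dif_neg hb] at h
      omega

theorem prio_hide (M : ℕ) (τ : Equiv.Perm (Fin M)) (S : Fin n → Finset ℕ) {i j : Fin n}
    (hj : j ≤ i) {u : ℕ} (hu : u ∈ S j) : prio M τ (hide i S) u = prio M τ S u := by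
  have h1 : u ∈ labs S := mem_labs.2 ⟨j, hu⟩
  have h2 : first S u ≤ i.val := (first_le hu).trans (Fin.le_def.1 hj)
  have h3 := first_hide h1 h2
  have h4 := idx_hide h1 h2
  unfold prio
  by_cases h : idx S u < M
  · rw [dif_pos ⟨h3.1, by rw [h4]; exact h⟩, dif_pos ⟨h1, h⟩]
    simp only [h4]
  · rw [dif_neg (fun h' => h (by rw [← h4]; exact h'.2)), dif_neg (fun h' => h h'.2)]

theorem labs_perm (S : Fin n → Finset ℕ) (σ : Equiv.Perm (Fin n)) : labs (S ∘ σ) = labs S := by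
  ext x
  rw [mem_labs, mem_labs]
  constructor
  · rintro ⟨j, hj⟩; exact ⟨σ j, hj⟩
  · rintro ⟨j, hj⟩; exact ⟨σ.symm j, by simpa using hj⟩

theorem card_labs_le (S : Fin n → Finset ℕ) {r : ℕ} (h : ∀ e, (S e).card ≤ r) :
    (labs S).card ≤ n * r := by
  unfold labs
  refine card_biUnion_le.trans ?_
  refine (sum_le_sum (fun e _ => h e)).trans ?_
  simp

/-- two injections of the labels into `Fin M` differ by a permutation -/
theorem exists_perm {M : ℕ} (U : Finset ℕ) (f g : ℕ → Fin M) (hf : Set.InjOn f U)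
    (hg : Set.InjOn g U) : ∃ π : Equiv.Perm (Fin M), ∀ u ∈ U, π (f u) = g u := by
  classical
  set e : {x // x ∈ f '' (U : Set ℕ)} ≃ {x // x ∈ g '' (U : Set ℕ)} :=
    (Equiv.Set.imageOfInjOn f U hf).symm.trans (Equiv.Set.imageOfInjOn g U hg) with he
  refine ⟨e.extendSubtype, fun u hu => ?_⟩
  have hmem : f u ∈ f '' (U : Set ℕ) := ⟨u, hu, rfl⟩
  rw [Equiv.extendSubtype_apply_of_mem e (f u) hmem]
  have h1 : (Equiv.Set.imageOfInjOn f U hf).symm ⟨f u, hmem⟩ = ⟨u, hu⟩ := by
    rw [Equiv.symm_apply_eq]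
    rfl
  rw [he, Equiv.trans_apply, h1]
  rfl

/-- the random order of the labels seen along `σ` and the one for the identity have the same
distribution -/
theorem exists_prio_perm {M : ℕ} (S : Fin n → Finset ℕ) (hM : (labs S).card ≤ M)
    (σ : Equiv.Perm (Fin n)) : ∃ π : Equiv.Perm (Fin M), ∀ τ : Equiv.Perm (Fin M),
      ∀ u ∈ labs S, prio M τ (S ∘ σ) u = prio M (τ * π) S u := by
  classical
  rcases Nat.eq_zero_or_pos M with h0 | h0
  · refine ⟨1, fun τ u hu => ?_⟩
    have : 0 < (labs S).card := card_pos.2 ⟨u, hu⟩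
    omega
  have : NeZero M := ⟨by omega⟩
  have hlt : ∀ u ∈ labs S, idx S u < M := fun u hu => lt_of_lt_of_le (idx_lt hu) hM
  have hlt' : ∀ u ∈ labs S, idx (S ∘ σ) u < M := fun u hu => by
    have h : u ∈ labs (S ∘ σ) := by rw [labs_perm]; exact hu
    exact lt_of_lt_of_le (idx_lt h) (by rw [labs_perm]; exact hM)
  obtain ⟨π, hπ⟩ := exists_perm (labs S) (fun u => Fin.ofNat M (idx S u))
    (fun u => Fin.ofNat M (idx (S ∘ σ) u)) (by
      intro a ha b hb h
      have h1 : idx S a % M = idx S b % M := congrArg Fin.val h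
      rw [Nat.mod_eq_of_lt (hlt a ha), Nat.mod_eq_of_lt (hlt b hb)] at h1
      exact idx_injOn S ha hb h1) (by
      intro a ha b hb h
      have h1 : idx (S ∘ σ) a % M = idx (S ∘ σ) b % M := congrArg Fin.val h
      rw [Nat.mod_eq_of_lt (hlt' a ha), Nat.mod_eq_of_lt (hlt' b hb)] at h1
      have ha' : a ∈ (labs (S ∘ σ)) := by rw [labs_perm]; exact ha
      have hb' : b ∈ (labs (S ∘ σ)) := by rw [labs_perm]; exact hb
      exact idx_injOn (S ∘ σ) ha' hb' h1)
  refine ⟨π, fun τ u hu => ?_⟩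
  have hu' : u ∈ labs (S ∘ σ) := by rw [labs_perm]; exact hu
  unfold prio
  rw [dif_pos ⟨hu', hlt' u hu⟩, dif_pos ⟨hu, hlt u hu⟩]
  have h1 : (⟨idx (S ∘ σ) u, hlt' u hu⟩ : Fin M) = Fin.ofNat M (idx (S ∘ σ) u) := by
    apply Fin.ext
    simp [Nat.mod_eq_of_lt (hlt' u hu)]
  have h2 : (⟨idx S u, hlt u hu⟩ : Fin M) = Fin.ofNat M (idx S u) := by
    apply Fin.ext
    simp [Nat.mod_eq_of_lt (hlt u hu)]
  rw [h1, h2, Equiv.Perm.mul_apply, hπ u hu]

end Appear

end Pool.Agent.Work.MP_3bf421_lc_SW
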