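import Pool.Agent.Work.MP_3bf421_lc_SW.Count

set_option autoImplicit false

/-!
For every `n ≥ 1` some sample size gives success probability at least `1/e`.
-/

namespace Pool.Agent.Work.MP_3bf421_lc_SW

open Finset Real

theorem log_le_half_sub_inv {x : ℝ} (hx : 1 ≤ x) : Real.log x ≤ (x - x⁻¹) / 2 := by
  have h0 : 0 < x := by linarith
  have h := Real.self_le_sinh_iff.2 (Real.log_nonneg hx)
  rwa [Real.sinh_log h0] at h

theorem harm_lower (t : ℕ) (ht : 1 ≤ t) (n : ℕ) (hn : t ≤ n) :
    Real.log ((n : ℝ) / t) + ((1 : ℝ) / t - 1 / n) / 2 ≤ ∑ j ∈ Ico t n, (1 : ℝ) / j := by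
  induction n, hn using Nat.le_induction with
  | base =>
    have : (t : ℝ) ≠ 0 := by positivity
    simp [this]
  | succ n hn ih =>
    rw [sum_Ico_succ_top hn]
    have ht0 : (0 : ℝ) < t := by exact_mod_cast ht
    have hn0 : (0 : ℝ) < n := by
      have : 0 < n := by omega
      exact_mod_cast this
    have h1 : Real.log (((n + 1 : ℕ) : ℝ) / t) = Real.log ((n : ℝ) / t) + Real.log (((n : ℝ) + 1) / n) := by
      rw [← Real.log_mul (by positivity) (by positivity)]
      congr 1
      push_cast
      field_simp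
    have h2 : Real.log (((n : ℝ) + 1) / n) ≤ (1 / (n : ℝ) + 1 / ((n : ℝ) + 1)) / 2 := by
      have h := log_le_half_sub_inv (x := ((n : ℝ) + 1) / n) (by
        rw [le_div_iff₀ hn0]; linarith)
      refine h.trans (le_of_eq ?_)
      field_simp
      ring
    rw [h1]
    push_cast
    linarith

theorem aval_eq (n t : ℕ) (ht : 1 ≤ t) : aval n t = ((t : ℝ) / n) * ∑ j ∈ Ico t n, (1 : ℝ) / j := by
  unfold aval
  rw [div_mul_eq_mul_div]
  congr 1
  rw [mul_sum]
  have : (range n).filter (fun j => t ≤ j) = Ico t n := by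
    ext j; simp [and_comm]
  rw [this]
  apply sum_congr rfl
  intro j hj
  have := (mem_Ico.1 hj).1
  rw [if_neg (by omega)]
  ring

theorem exists_aval (n : ℕ) (hn : 1 ≤ n) : ∃ t : ℕ, Real.exp (-1) ≤ aval n t := by
  have he := Real.exp_neg_one_lt_d9
  by_cases hbig : 11 ≤ n
  · set e := Real.exp 1 with hedef
    have he1 : e < 2.7182818286 := Real.exp_one_lt_d9
    have he2 : 2.7182818283 < e := Real.exp_one_gt_d9
    have he0 : 0 < e := Real.exp_pos 1
    have hn0 : (0 : ℝ) < n := by
      have : 0 < n := by omega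
      exact_mod_cast this
    have hn11 : (11 : ℝ) ≤ n := by exact_mod_cast hbig
    set t := ⌈(n : ℝ) / e⌉₊ with htdef
    have ht1 : (n : ℝ) / e ≤ t := Nat.le_ceil _
    have ht2 : (t : ℝ) < (n : ℝ) / e + 1 := Nat.ceil_lt_add_one (by positivity)
    have ht0 : 0 < (t : ℝ) := lt_of_lt_of_le (by positivity) ht1
    have ht : 1 ≤ t := by
      have : 0 < t := by exact_mod_cast ht0
      omega
    have hdiv : (n : ℝ) / e < n / 2.7182818283 := by
      apply div_lt_div_of_pos_left hn0 (by norm_num) he2
    have htn' : (t : ℝ) < n := by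
      have : (n : ℝ) / 2.7182818283 + 1 ≤ n := by
        rw [div_add_one (by norm_num), div_le_iff₀ (by norm_num)]
        nlinarith
      linarith
    have htn : t ≤ n := by
      have : t < n := by exact_mod_cast htn'
      omega
    refine ⟨t, ?_⟩
    rw [aval_eq n t ht]
    have h1 := harm_lower t ht n htn
    set x : ℝ := (t : ℝ) / n with hx
    have hx0 : 0 < x := by positivity
    have hx1 : 1 / e ≤ x := by
      rw [hx, div_le_div_iff₀ he0 hn0]
      rw [div_le_iff₀ he0] at ht1
      linarith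
    have hx2 : x < 1 / e + 1 / n := by
      rw [hx, div_lt_iff₀ hn0]
      have : (1 / e + 1 / n) * (n : ℝ) = n / e + 1 := by field_simp
      rw [this]; exact ht2
    -- logarithm
    have h2 : 2 - e * x ≤ Real.log ((n : ℝ) / t) := by
      have h3 : (n : ℝ) / t = x⁻¹ := by rw [hx, inv_div]
      rw [h3, Real.log_inv]
      have h4 : Real.log (e * x) ≤ e * x - 1 := Real.log_le_sub_one_of_pos (by positivity)
      rw [Real.log_mul he0.ne' hx0.ne', hedef, Real.log_exp] at h4
      rw [hedef]
      linarith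
    have h5 : x * (2 - e * x + ((1 : ℝ) / t - 1 / n) / 2) ≤
        x * ∑ j ∈ Ico t n, (1 : ℝ) / j := by
      apply mul_le_mul_of_nonneg_left _ hx0.le
      linarith
    refine le_trans ?_ h5
    have h6 : x * (((1 : ℝ) / t - 1 / n) / 2) = (1 - x) / (2 * n) := by
      rw [hx]; field_simp
    have hexp : Real.exp (-1) = 1 / e := by rw [Real.exp_neg, hedef, one_div]
    rw [hexp, mul_add, h6]
    -- x (2 - e x) = 1/e - e (x - 1/e)^2
    have h7 : x * (2 - e * x) = 1 / e - e * (x - 1 / e) ^ 2 := by
      field_simp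
      ring
    rw [h7]
    have h8 : (x - 1 / e) ^ 2 ≤ (1 / (n : ℝ)) ^ 2 := by
      apply pow_le_pow_left₀ (by linarith)
      linarith
    have h9 : e * (x - 1 / e) ^ 2 ≤ e * (1 / (n : ℝ)) ^ 2 := mul_le_mul_of_nonneg_left h8 he0.le
    have h10 : e * (1 / (n : ℝ)) ^ 2 ≤ (1 - x) / (2 * n) := by
      rw [le_div_iff₀ (by positivity)]
      have h11 : e * (1 / (n : ℝ)) ^ 2 * (2 * n) = 2 * e / n := by field_simp
      rw [h11, div_le_iff₀ hn0]
      have h12 : (1 - x) * (n : ℝ) = n - t := by rw [hx]; field_simp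
      rw [h12]
      have h13 : (n : ℝ) / 2.7182818283 ≤ 0.3679 * n := by
        rw [div_le_iff₀ (by norm_num)]
        nlinarith
      nlinarith
    linarith
  · push Not at hbig
    interval_cases n
    · exact ⟨0, by norm_num [aval, sum_filter, sum_range_succ]⟩
    · exact ⟨1, by norm_num [aval, sum_filter, sum_range_succ]; linarith⟩
    · exact ⟨1, by norm_num [aval, sum_filter, sum_range_succ]; linarith⟩
    · exact ⟨1, by norm_num [aval, sum_filter, sum_range_succ]; linarith⟩
    · exact ⟨2, by norm_num [aval, sum_filter, sum_range_succ]; linarith⟩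
    · exact ⟨2, by norm_num [aval, sum_filter, sum_range_succ]; linarith⟩
    · exact ⟨2, by norm_num [aval, sum_filter, sum_range_succ]; linarith⟩
    · exact ⟨3, by norm_num [aval, sum_filter, sum_range_succ]; linarith⟩
    · exact ⟨3, by norm_num [aval, sum_filter, sum_range_succ]; linarith⟩
    · exact ⟨3, by norm_num [aval, sum_filter, sum_range_succ]; linarith⟩

end Pool.Agent.Work.MP_3bf421_lc_SW
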