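import Pool.Agent.Work.MP_3bf421_lc_SW.ThrRule

set_option autoImplicit false

/-!
The combined rule for one label: `k`-choice with ratio `al k`, at least `1/e`, tending to `1`.
-/

namespace Pool.Agent.Work.MP_3bf421_lc_SW

open Finset Filter Topology

/-- fourth root -/
def rt (k : ℕ) : ℕ := Nat.sqrt (Nat.sqrt k)

theorem rt_pow (k : ℕ) : rt k ^ 4 ≤ k := by
  have h1 : rt k * rt k ≤ Nat.sqrt k := Nat.sqrt_le _
  have h2 : Nat.sqrt k * Nat.sqrt k ≤ k := Nat.sqrt_le _
  calc rt k ^ 4 = (rt k * rt k) * (rt k * rt k) := by ring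
    _ ≤ Nat.sqrt k * Nat.sqrt k := Nat.mul_le_mul h1 h1
    _ ≤ k := h2

theorem le_rt {k N : ℕ} (h : N ^ 4 ≤ k) : N ≤ rt k := by
  unfold rt
  rw [Nat.le_sqrt, Nat.le_sqrt]
  calc N * N * (N * N) = N ^ 4 := by ring
    _ ≤ k := h

/-- the ratio for capacity `k` -/
noncomputable def al (k : ℕ) : ℝ := if 40 ≤ rt k then 1 - 19 / (rt k : ℝ) else Real.exp (-1)

theorem al_le_one (k : ℕ) : al k ≤ 1 := by
  unfold al
  split_ifs with h
  · have : (0 : ℝ) ≤ 19 / (rt k : ℝ) := by positivity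
    linarith
  · rw [Real.exp_le_one_iff]; norm_num

theorem le_al (k : ℕ) : Real.exp (-1) ≤ al k := by
  unfold al
  split_ifs with h
  · have he := Real.exp_neg_one_lt_d9
    have h1 : (40 : ℝ) ≤ rt k := by exact_mod_cast h
    have h2 : 19 / (rt k : ℝ) ≤ 19 / 40 := div_le_div_of_nonneg_left (by norm_num) (by norm_num) h1
    linarith
  · exact le_rfl

theorem al_nonneg (k : ℕ) : 0 ≤ al k := (Real.exp_pos _).le.trans (le_al k)

theorem tendsto_al : Tendsto al atTop (𝓝 1) := by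
  rw [Metric.tendsto_atTop]
  intro ε hε
  obtain ⟨N, hN⟩ := exists_nat_gt (max 40 (19 / ε))
  have hN40 : (40 : ℝ) < N := lt_of_le_of_lt (le_max_left _ _) hN
  have hNε : 19 / ε < N := lt_of_le_of_lt (le_max_right _ _) hN
  refine ⟨N ^ 4, fun k hk => ?_⟩
  have h1 : N ≤ rt k := le_rt hk
  have h40 : 40 ≤ N := by exact_mod_cast hN40.le
  have h2 : (N : ℝ) ≤ rt k := by exact_mod_cast h1
  unfold al
  rw [if_pos (h40.trans h1), Real.dist_eq]
  have h3 : (1 : ℝ) - 19 / (rt k : ℝ) - 1 = -(19 / (rt k : ℝ)) := by ring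
  have hpos : (0 : ℝ) < rt k := by linarith
  rw [h3, abs_neg, abs_of_nonneg (by positivity), div_lt_iff₀ hpos]
  rw [div_lt_iff₀ hε] at hNε
  nlinarith

theorem al_mono {k k' : ℕ} (h : k ≤ k') : al k ≤ al k' := by
  have h1 : rt k ≤ rt k' := Nat.sqrt_le_sqrt (Nat.sqrt_le_sqrt h)
  by_cases h40 : 40 ≤ rt k
  · unfold al
    rw [if_pos h40, if_pos (h40.trans h1)]
    have h2 : (40 : ℝ) ≤ rt k := by exact_mod_cast h40
    have h3 : (rt k : ℝ) ≤ rt k' := by exact_mod_cast h1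
    have h4 : 19 / (rt k' : ℝ) ≤ 19 / rt k :=
      div_le_div_of_nonneg_left (by norm_num) (by linarith) h3
    linarith
  · have : al k = Real.exp (-1) := by unfold al; rw [if_neg h40]
    rw [this]
    exact le_al k'

section Comb

variable {α : Type*} [LinearOrder α] {n : ℕ}

/-- threshold parameters -/
def tt (n k : ℕ) : ℕ := n / rt k

noncomputable def mm (n k : ℕ) : ℕ :=
  ⌈((k : ℝ) - (k / rt k : ℕ)) * ((tt n k : ℝ) / n)⌉₊

/-- the rule for one label with capacity `k`; `t` is the sample size of the virtual rule -/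
def comb (t : ℕ) (κ : Fin n → α) (P : Fin n → Prop) (k : ℕ) (i : Fin n) : Prop :=
  (n ≤ k ∧ P i) ∨ (¬ n ≤ k ∧ 40 ≤ rt k ∧ thr κ P (tt n k) (mm n k) k i) ∨
    (¬ n ≤ k ∧ ¬ 40 ≤ rt k ∧ sel κ P t k i)

theorem comb_mem {t : ℕ} {κ : Fin n → α} {P : Fin n → Prop} {k : ℕ} {i : Fin n}
    (h : comb t κ P k i) : P i := by
  classical
  rcases h with h | h | h
  · exact h.2
  · have := h.2.2.1
    simp only [cand, mem_filter, mem_univ, true_and] at this
    exact this.2.1
  · exact h.2.2.2.1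

theorem comb_congr {t : ℕ} {κ κ' : Fin n → α} {P P' : Fin n → Prop} {k : ℕ} {i : Fin n}
    (h1 : ∀ j, j ≤ i → κ j = κ' j) (h2 : ∀ j, j ≤ i → (P j ↔ P' j)) :
    comb t κ P k i ↔ comb t κ' P' k i := by
  unfold comb
  rw [h2 i le_rfl, thr_congr h1 h2, sel_congr h1 h2]

open Classical in
theorem comb_card_le (t : ℕ) (κ : Fin n → α) (hκ : Function.Injective κ) (P : Fin n → Prop)
    (k : ℕ) : (univ.filter (fun i => comb t κ P k i)).card ≤ k := by
  by_cases hnk : n ≤ k
  · refine le_trans (card_le_univ _) ?_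
    rw [Fintype.card_fin]; exact hnk
  by_cases h40 : 40 ≤ rt k
  · refine le_trans (card_le_card ?_) (thr_card_le κ P (tt n k) (mm n k) k)
    intro i hi
    have h := (mem_filter.1 hi).2
    rcases h with h | h | h
    · exact absurd h.1 hnk
    · exact mem_filter.2 ⟨mem_univ _, h.2.2⟩
    · exact absurd h40 h.2.1
  · refine le_trans (card_le_card ?_) (sel_card_le κ hκ P t k)
    intro i hi
    have h := (mem_filter.1 hi).2
    rcases h with h | h | h
    · exact absurd h.1 hnk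
    · exact absurd h.2.1 h40
    · exact mem_filter.2 ⟨mem_univ _, h.2.2⟩

/-- parameters of the threshold rule -/
theorem thr_param {n k : ℕ} (hnk : ¬ n ≤ k) (h40 : 40 ≤ rt k) :
    tt n k ≤ n ∧ 0 < tt n k ∧ 0 < k / rt k ∧ 2 * (k / rt k) ≤ k ∧
    (1 - 17 / (rt k : ℝ) ≤ 1 - (tt n k : ℝ) / n -
      2 * (k / (((k / rt k : ℕ) : ℝ) ^ 2 * ((tt n k : ℝ) / n)))) ∧
    (1 - 2 / (rt k : ℝ)) * k ≤ ((k - 2 * (k / rt k) : ℕ) : ℝ) := by
  have h4 := rt_pow k
  set a := rt k with ha
  have ha0 : 0 < a := by omega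
  push Not at hnk
  have haR : (40 : ℝ) ≤ a := by exact_mod_cast h40
  have ha0R : (0 : ℝ) < a := by linarith
  have h4R : (a : ℝ) ^ 4 ≤ k := by exact_mod_cast h4
  have hnkR : (k : ℝ) < n := by exact_mod_cast hnk
  have hk0 : (0 : ℝ) < k := lt_of_lt_of_le (by positivity) h4R
  have hn0 : (0 : ℝ) < n := hk0.trans hnkR
  have ht : tt n k = n / a := rfl
  have hg1 : ((k / a : ℕ) : ℝ) ≤ k / a := Nat.cast_div_le
  have ht1 : ((n / a : ℕ) : ℝ) ≤ n / a := Nat.cast_div_le
  have hg2 : (k : ℝ) / a - 1 < (k / a : ℕ) := by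
    have := Nat.lt_div_mul_add (a := k) ha0
    have h : (k : ℝ) < (k / a : ℕ) * a + a := by exact_mod_cast this
    rw [sub_lt_iff_lt_add, div_lt_iff₀ ha0R]
    linarith
  have ht2 : (n : ℝ) / a - 1 < (n / a : ℕ) := by
    have := Nat.lt_div_mul_add (a := n) ha0
    have h : (n : ℝ) < (n / a : ℕ) * a + a := by exact_mod_cast this
    rw [sub_lt_iff_lt_add, div_lt_iff₀ ha0R]
    linarith
  -- k / a is at least 2
  have hka : 2 ≤ (k : ℝ) / a := by
    rw [le_div_iff₀ ha0R]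
    have : (a : ℝ) ^ 4 = a * a ^ 3 := by ring
    have h3 : (2 : ℝ) ≤ a ^ 3 := by nlinarith [pow_pos ha0R 2, pow_pos ha0R 3]
    nlinarith
  have hna : 2 ≤ (n : ℝ) / a := hka.trans (div_le_div_of_nonneg_right hnkR.le ha0R.le)
  have hg3 : (k : ℝ) / (2 * a) ≤ (k / a : ℕ) := by
    have : (k : ℝ) / (2 * a) = (k / a) / 2 := by field_simp
    rw [this]; linarith
  have ht3 : (n : ℝ) / (2 * a) ≤ (n / a : ℕ) := by
    have : (n : ℝ) / (2 * a) = (n / a) / 2 := by field_simp
    rw [this]; linarith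
  have hgpos : 0 < k / a := by
    have : (0 : ℝ) < (k / a : ℕ) := by linarith
    exact_mod_cast this
  have htpos : 0 < n / a := by
    have : (0 : ℝ) < (n / a : ℕ) := by linarith
    exact_mod_cast this
  have h2g : 2 * (k / a) ≤ k := by
    have h1 : k / a * a ≤ k := Nat.div_mul_le_self k a
    have h2 : k / a * 2 ≤ k / a * a := Nat.mul_le_mul_left _ (by omega)
    omega
  refine ⟨by rw [ht]; exact Nat.div_le_self _ _, by rw [ht]; exact htpos, hgpos, h2g, ?_, ?_⟩
  · rw [ht]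
    set g : ℝ := ((k / a : ℕ) : ℝ) with hgdef
    set t : ℝ := ((n / a : ℕ) : ℝ) with htdef
    have hq1 : t / n ≤ 1 / a := by
      rw [div_le_div_iff₀ hn0 ha0R]
      rw [le_div_iff₀ ha0R] at ht1
      linarith
    have hq2 : 1 / (2 * a) ≤ t / n := by
      rw [div_le_div_iff₀ (by positivity) hn0]
      rw [div_le_iff₀ (by positivity)] at ht3
      linarith
    have hgg : (k : ℝ) ^ 2 / (4 * a ^ 2) ≤ g ^ 2 := by
      have : (k : ℝ) ^ 2 / (4 * a ^ 2) = (k / (2 * a)) ^ 2 := by field_simp; ring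
      rw [this]
      exact pow_le_pow_left₀ (by positivity) hg3 2
    have hden : (k : ℝ) ^ 2 / (8 * a ^ 3) ≤ g ^ 2 * (t / n) := by
      calc (k : ℝ) ^ 2 / (8 * a ^ 3) = (k : ℝ) ^ 2 / (4 * a ^ 2) * (1 / (2 * a)) := by
            field_simp; ring
        _ ≤ g ^ 2 * (t / n) := mul_le_mul hgg hq2 (by positivity) (by positivity)
    have hmain : (k : ℝ) / (g ^ 2 * (t / n)) ≤ 8 / a := by
      have hdpos : 0 < g ^ 2 * (t / n) := lt_of_lt_of_le (by positivity) hden
      rw [div_le_div_iff₀ hdpos ha0R]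
      have h5 : (k : ℝ) * a ≤ 8 * ((k : ℝ) ^ 2 / (8 * a ^ 3)) := by
        have : 8 * ((k : ℝ) ^ 2 / (8 * a ^ 3)) = k ^ 2 / a ^ 3 := by field_simp
        rw [this, le_div_iff₀ (by positivity)]
        nlinarith [mul_le_mul_of_nonneg_left h4R hk0.le]
      linarith
    have h17 : (17 : ℝ) / a = 1 / a + 2 * (8 / a) := by ring
    linarith
  · rw [Nat.cast_sub h2g]
    push_cast
    have : (1 - 2 / (a : ℝ)) * k = k - 2 * (k / a) := by ring
    rw [this]
    linarith

open Classical in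
theorem comb_value {t : ℕ} (ht : Real.exp (-1) ≤ aval n t) (κ : Fin n → α)
    (hκ : Function.Injective κ) (P : Fin n → Prop) (k : ℕ) {w : Fin n → ℝ} (hw : ∀ e, 0 ≤ w e)
    (hmono : ∀ e f, κ e < κ f → w e ≤ w f) (J : Finset (Fin n)) (hJ : ∀ e ∈ J, P e)
    (hJk : J.card ≤ k) :
    (n.factorial : ℝ) * (al k * ∑ e ∈ J, w e) ≤ ∑ e ∈ univ.filter P,
      ((univ.filter (fun σ : Equiv.Perm (Fin n) =>
        comb t (κ ∘ σ) (P ∘ σ) k (σ.symm e))).card : ℝ) * w e := by
  set B : Finset (Fin n) := univ.filter P with hB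
  have hJB : J ⊆ B := fun e he => mem_filter.2 ⟨mem_univ _, hJ e he⟩
  have hJ0 : 0 ≤ ∑ e ∈ J, w e := sum_nonneg fun e _ => hw e
  have hfac : (0 : ℝ) < n.factorial := by positivity
  have hcnt : ∀ e, 0 ≤ ((univ.filter (fun σ : Equiv.Perm (Fin n) =>
        comb t (κ ∘ σ) (P ∘ σ) k (σ.symm e))).card : ℝ) * w e := fun e =>
    mul_nonneg (by positivity) (hw e)
  by_cases hnk : n ≤ k
  · -- accept everything
    have h1 : ∀ e ∈ B, ((univ.filter (fun σ : Equiv.Perm (Fin n) =>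
        comb t (κ ∘ σ) (P ∘ σ) k (σ.symm e))).card : ℝ) = n.factorial := by
      intro e he
      have : univ.filter (fun σ : Equiv.Perm (Fin n) =>
        comb t (κ ∘ σ) (P ∘ σ) k (σ.symm e)) = univ := by
        apply filter_true_of_mem
        intro σ _
        left
        refine ⟨hnk, ?_⟩
        simp only [Function.comp_apply, Equiv.apply_symm_apply]
        exact (mem_filter.1 he).2
      rw [this, card_univ, Fintype.card_perm, Fintype.card_fin]
    have h2 : ∑ e ∈ B, ((univ.filter (fun σ : Equiv.Perm (Fin n) =>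
        comb t (κ ∘ σ) (P ∘ σ) k (σ.symm e))).card : ℝ) * w e =
        n.factorial * ∑ e ∈ B, w e := by
      rw [mul_sum]
      exact sum_congr rfl fun e he => by rw [h1 e he]
    rw [h2]
    apply mul_le_mul_of_nonneg_left _ hfac.le
    calc al k * ∑ e ∈ J, w e ≤ 1 * ∑ e ∈ J, w e := mul_le_mul_of_nonneg_right (al_le_one k) hJ0
      _ = ∑ e ∈ J, w e := one_mul _
      _ ≤ ∑ e ∈ B, w e := sum_le_sum_of_subset_of_nonneg hJB fun e _ _ => hw e
  by_cases h40 : 40 ≤ rt k
  · obtain ⟨h1, h2, h3, h4, h5, h6⟩ := thr_param hnk h40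
    set k' := k - 2 * (k / rt k) with hk'
    have haR : (40 : ℝ) ≤ rt k := by exact_mod_cast h40
    have ha0 : (0 : ℝ) < rt k := by linarith
    have h17 : (17 : ℝ) / rt k ≤ 17 / 40 :=
      div_le_div_of_nonneg_left (by norm_num) (by norm_num) haR
    have hb : 0 ≤ 1 - 17 / (rt k : ℝ) := by linarith
    have hk0 : 0 < k := by
      rcases Nat.eq_zero_or_pos k with h | h
      · exfalso
        rw [h] at h40
        simp [rt] at h40
      · exact h
    have hk0R : (0 : ℝ) < k := by exact_mod_cast hk0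
    have h7 : ∀ e ∈ top κ B k', (n.factorial : ℝ) * (1 - 17 / (rt k : ℝ)) ≤
        ((univ.filter (fun σ : Equiv.Perm (Fin n) =>
        comb t (κ ∘ σ) (P ∘ σ) k (σ.symm e))).card : ℝ) := by
      intro e he
      have he' := mem_filter.1 he
      have hv := thr_value (t := tt n k) (m := mm n k) (k := k) (k' := k') (g := k / rt k)
        κ hκ P h1 h2 (by omega) h3 rfl e (mem_filter.1 he'.1).2 he'.2
      refine le_trans ?_ (hv.trans ?_)
      · exact mul_le_mul_of_nonneg_left h5 hfac.le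
      · apply Nat.cast_le.2
        apply card_le_card
        intro σ hσ
        simp only [mem_filter, mem_univ, true_and] at hσ ⊢
        exact Or.inr (Or.inl ⟨hnk, h40, hσ⟩)
    have hsubB : top κ B k' ⊆ B := filter_subset _ _
    have h8 : ∑ e ∈ top κ B k', (n.factorial : ℝ) * (1 - 17 / (rt k : ℝ)) * w e ≤
        ∑ e ∈ B, ((univ.filter (fun σ : Equiv.Perm (Fin n) =>
        comb t (κ ∘ σ) (P ∘ σ) k (σ.symm e))).card : ℝ) * w e := by
      refine le_trans (sum_le_sum fun e he => mul_le_mul_of_nonneg_right (h7 e he) (hw e)) ?_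
      exact sum_le_sum_of_subset_of_nonneg hsubB fun e _ _ => hcnt e
    refine le_trans ?_ h8
    rw [← mul_sum, mul_assoc]
    apply mul_le_mul_of_nonneg_left _ hfac.le
    have h9 : ∑ e ∈ J, w e ≤ ∑ e ∈ top κ B k, w e := sum_le_sum_top hκ hw hmono hJB hJk
    have h10 := sum_top_scale hκ B (k := k) (k' := k') (by omega) hw hmono
    have hT : 0 ≤ ∑ e ∈ top κ B k, w e := sum_nonneg fun e _ => hw e
    have h11 : (1 - 2 / (rt k : ℝ)) * ∑ e ∈ top κ B k, w e ≤ ∑ e ∈ top κ B k', w e := by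
      have h12 : (1 - 2 / (rt k : ℝ)) * k * ∑ e ∈ top κ B k, w e ≤
          k * ∑ e ∈ top κ B k', w e :=
        (mul_le_mul_of_nonneg_right h6 hT).trans h10
      have h13 : (k : ℝ) * ((1 - 2 / (rt k : ℝ)) * ∑ e ∈ top κ B k, w e) ≤
          k * ∑ e ∈ top κ B k', w e := by
        calc (k : ℝ) * ((1 - 2 / (rt k : ℝ)) * ∑ e ∈ top κ B k, w e)
            = (1 - 2 / (rt k : ℝ)) * k * ∑ e ∈ top κ B k, w e := by ring
          _ ≤ _ := h12
      exact le_of_mul_le_mul_left h13 hk0R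
    have hal : al k = 1 - 19 / (rt k : ℝ) := by unfold al; rw [if_pos h40]
    rw [hal]
    have h2a : (2 : ℝ) / rt k ≤ 2 / 40 :=
      div_le_div_of_nonneg_left (by norm_num) (by norm_num) haR
    calc (1 - 19 / (rt k : ℝ)) * ∑ e ∈ J, w e
        ≤ ((1 - 17 / (rt k : ℝ)) * (1 - 2 / (rt k : ℝ))) * ∑ e ∈ J, w e := by
          apply mul_le_mul_of_nonneg_right _ hJ0
          have : (1 - 17 / (rt k : ℝ)) * (1 - 2 / (rt k : ℝ)) =
            1 - 19 / (rt k : ℝ) + (17 / (rt k : ℝ)) * (2 / (rt k : ℝ)) := by ring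
          rw [this]
          have : 0 ≤ (17 / (rt k : ℝ)) * (2 / (rt k : ℝ)) := by positivity
          linarith
      _ ≤ ((1 - 17 / (rt k : ℝ)) * (1 - 2 / (rt k : ℝ))) * ∑ e ∈ top κ B k, w e := by
          apply mul_le_mul_of_nonneg_left h9
          apply mul_nonneg hb
          linarith
      _ = (1 - 17 / (rt k : ℝ)) * ((1 - 2 / (rt k : ℝ)) * ∑ e ∈ top κ B k, w e) := by ring
      _ ≤ (1 - 17 / (rt k : ℝ)) * ∑ e ∈ top κ B k', w e := mul_le_mul_of_nonneg_left h11 hb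
  · -- the virtual rule
    have h7 : ∀ e ∈ top κ B k, (n.factorial : ℝ) * al k ≤
        ((univ.filter (fun σ : Equiv.Perm (Fin n) =>
        comb t (κ ∘ σ) (P ∘ σ) k (σ.symm e))).card : ℝ) := by
      intro e he
      have he' := mem_filter.1 he
      have hr : (univ.filter (fun f => P f ∧ κ e < κ f)).card < k := by
        refine lt_of_le_of_lt (card_le_card ?_) he'.2
        intro f hf
        simp only [mem_filter, mem_univ, true_and, hB] at hf ⊢
        exact hf
      have hc := card_sel_ge κ hκ P t k e (mem_filter.1 he'.1).2 hr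
      refine le_trans ?_ (hc.trans ?_)
      · apply mul_le_mul_of_nonneg_left _ hfac.le
        unfold al
        rw [if_neg h40]
        exact ht
      · apply Nat.cast_le.2
        apply card_le_card
        intro σ hσ
        simp only [mem_filter, mem_univ, true_and] at hσ ⊢
        exact Or.inr (Or.inr ⟨hnk, h40, hσ⟩)
    have h9 : ∑ e ∈ J, w e ≤ ∑ e ∈ top κ B k, w e := sum_le_sum_top hκ hw hmono hJB hJk
    calc (n.factorial : ℝ) * (al k * ∑ e ∈ J, w e)
        ≤ (n.factorial : ℝ) * (al k * ∑ e ∈ top κ B k, w e) :=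
          mul_le_mul_of_nonneg_left (mul_le_mul_of_nonneg_left h9 (al_nonneg k)) hfac.le
      _ = ∑ e ∈ top κ B k, (n.factorial : ℝ) * al k * w e := by rw [← mul_sum, mul_assoc]
      _ ≤ ∑ e ∈ top κ B k, ((univ.filter (fun σ : Equiv.Perm (Fin n) =>
        comb t (κ ∘ σ) (P ∘ σ) k (σ.symm e))).card : ℝ) * w e :=
          sum_le_sum fun e he => mul_le_mul_of_nonneg_right (h7 e he) (hw e)
      _ ≤ _ := sum_le_sum_of_subset_of_nonneg (filter_subset _ _) fun e _ _ => hcnt e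

end Comb

end Pool.Agent.Work.MP_3bf421_lc_SW
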