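import Pool.Agent.Work.MP_3bf421_lc_SW.Rank

set_option autoImplicit false

/-!
Random order: the probability that the virtual rule selects an element of the top `d`.
-/

namespace Pool.Agent.Work.MP_3bf421_lc_SW

open Finset

section Count

variable {α : Type*} [LinearOrder α] {n : ℕ}

open Classical in
/-- rank of the name `e` among the names of the block that arrive before position `j` -/
noncomputable def nrk (κ : Fin n → α) (P : Fin n → Prop) (σ : Equiv.Perm (Fin n)) (j : ℕ)
    (e : Fin n) : ℕ :=
  (univ.filter (fun f => (σ.symm f).val < j ∧ P f ∧ κ e < κ f)).card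

theorem rk_eq_nrk (κ : Fin n → α) (P : Fin n → Prop) (σ : Equiv.Perm (Fin n)) (j : ℕ)
    (c : Fin n) : rk (κ ∘ σ) (bef (P ∘ σ) j) c = nrk κ P σ j (σ c) := by
  classical
  unfold rk nrk
  apply Finset.card_equiv σ
  intro i
  simp [mem_bef, and_assoc]

theorem nrk_swap (κ : Fin n → α) (P : Fin n → Prop) (σ : Equiv.Perm (Fin n)) {j : ℕ}
    {c c' : Fin n} (hc : c.val < j) (hc' : c'.val < j) (e : Fin n) :
    nrk κ P (σ * Equiv.swap c c') j e = nrk κ P σ j e := by
  classical
  unfold nrk
  congr 1
  ext f
  simp only [mem_filter, mem_univ, true_and]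
  have : ((σ * Equiv.swap c c').symm f).val < j ↔ (σ.symm f).val < j := by
    have h : (σ * Equiv.swap c c').symm f = Equiv.swap c c' (σ.symm f) := by
      rw [Equiv.symm_apply_eq]
      simp
    rw [h]
    rcases Equiv.swap_apply_eq_iff (x := c) (y := c') (z := σ.symm f) (w := σ.symm f) with _
    by_cases h1 : σ.symm f = c
    · rw [h1, Equiv.swap_apply_left]
      exact ⟨fun _ => hc, fun _ => hc'⟩
    by_cases h2 : σ.symm f = c'
    · rw [h2, Equiv.swap_apply_right]
      exact ⟨fun _ => hc', fun _ => hc⟩
    rw [Equiv.swap_apply_of_ne_of_ne h1 h2]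
  rw [this]

open Classical in
/-- orders with `e0` at position `j` -/
noncomputable def Yset (j e0 : Fin n) : Finset (Equiv.Perm (Fin n)) :=
  univ.filter (fun σ => σ j = e0)

theorem card_Yset (j e0 : Fin n) : n * (Yset j e0).card = n.factorial := by
  classical
  have h1 : ∀ i : Fin n, (Yset i e0).card = (Yset j e0).card := by
    intro i
    apply Finset.card_equiv (Equiv.mulRight (Equiv.swap i j))
    intro σ
    simp [Yset]
  have h2 : ∑ i : Fin n, (Yset i e0).card = n.factorial := by
    have : ∀ i : Fin n, (Yset i e0).card = ∑ σ : Equiv.Perm (Fin n), if σ i = e0 then 1 else 0 := by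
      intro i
      rw [Yset, card_filter]
    rw [sum_congr rfl fun i _ => this i, sum_comm]
    have h3 : ∀ σ : Equiv.Perm (Fin n), (∑ i : Fin n, if σ i = e0 then 1 else 0) = 1 := by
      intro σ
      rw [sum_eq_single (σ.symm e0)]
      · simp
      · intro b _ hb
        rw [if_neg]
        intro h
        exact hb (by rw [← h]; simp)
      · simp
    rw [sum_congr rfl fun σ _ => h3 σ]
    simp [Fintype.card_perm]
  rw [← h2, sum_congr rfl fun i _ => h1 i]
  simp

open Classical in
/-- orders with `e0` at position `j` and the cut-off element at position `c` -/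
noncomputable def Xset (κ : Fin n → α) (P : Fin n → Prop) (d : ℕ) (e0 j c : Fin n) :
    Finset (Equiv.Perm (Fin n)) :=
  univ.filter (fun σ => σ j = e0 ∧ P (σ c) ∧ nrk κ P σ j.val (σ c) + 1 = d)

theorem card_Xset (κ : Fin n → α) (P : Fin n → Prop) (d : ℕ) (e0 j : Fin n) {c c' : Fin n}
    (hc : c < j) (hc' : c' < j) : (Xset κ P d e0 j c).card = (Xset κ P d e0 j c').card := by
  classical
  apply Finset.card_equiv (Equiv.mulRight (Equiv.swap c c'))
  intro σ
  simp only [Xset, mem_filter, mem_univ, true_and, Equiv.coe_mulRight]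
  have h1 : (σ * Equiv.swap c c') j = σ j := by
    simp [Equiv.swap_apply_of_ne_of_ne hc.ne' hc'.ne']
  have h2 : (σ * Equiv.swap c c') c' = σ c := by simp
  rw [h1, h2, nrk_swap κ P σ hc hc']

theorem sum_card_Xset (κ : Fin n → α) (hκ : Function.Injective κ) (P : Fin n → Prop) (d : ℕ)
    (e0 j : Fin n) : ∑ c ∈ univ.filter (fun c => c < j), (Xset κ P d e0 j c).card ≤
      (Yset j e0).card := by
  classical
  rw [← card_biUnion]
  · apply card_le_card
    intro σ hσ
    obtain ⟨c, _, h⟩ := mem_biUnion.1 hσ
    simp only [Xset, Yset, mem_filter, mem_univ, true_and] at h ⊢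
    exact h.1
  · intro c hc c' hc' hne
    rw [Function.onFun, Finset.disjoint_left]
    intro σ h h'
    simp only [Xset, mem_filter, mem_univ, true_and, coe_filter, Set.mem_ofPred_eq] at h h' hc hc'
    apply hne
    have hb : c ∈ bef (P ∘ σ) j.val := mem_bef.2 ⟨hc, h.2.1⟩
    have hb' : c' ∈ bef (P ∘ σ) j.val := mem_bef.2 ⟨hc', h'.2.1⟩
    apply rk_injOn (hκ.comp σ.injective) _ hb hb'
    rw [rk_eq_nrk, rk_eq_nrk]
    omega

open Classical in
/-- good orders with `e0` at position `j` -/
noncomputable def Gset (κ : Fin n → α) (P : Fin n → Prop) (t d : ℕ) (e0 j : Fin n) :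
    Finset (Equiv.Perm (Fin n)) :=
  univ.filter (fun σ => σ j = e0 ∧ ∀ c ∈ bef (P ∘ σ) j.val,
    rk (κ ∘ σ) (bef (P ∘ σ) j.val) c + 1 = d → c.val < t)

theorem card_Gset (κ : Fin n → α) (hκ : Function.Injective κ) (P : Fin n → Prop) (t d : ℕ)
    (e0 j : Fin n) (htj : t ≤ j.val) : t * (Yset j e0).card ≤ j.val * (Gset κ P t d e0 j).card := by
  classical
  rcases Nat.eq_zero_or_pos j.val with h0 | h0
  · have : t = 0 := by omega
    rw [this]; simp
  set z : Fin n := ⟨0, by have := j.2; omega⟩ with hz
  have hzj : z < j := by rw [Fin.lt_def]; exact h0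
  set x := (Xset κ P d e0 j z).card with hx
  have h1 : j.val * x ≤ (Yset j e0).card := by
    have h := sum_card_Xset κ hκ P d e0 j
    rw [sum_congr rfl (g := fun _ => x)] at h
    · rw [sum_const, smul_eq_mul] at h
      have hc : (univ.filter (fun c : Fin n => c < j)).card = j.val := by
        have : (univ.filter (fun c : Fin n => c < j)) = Finset.Iio j := by ext; simp
        rw [this, Fin.card_Iio]
      rwa [hc] at h
    · intro c hc
      exact card_Xset κ P d e0 j (mem_filter.1 hc).2 hzj
  -- bad orders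
  have h2 : (Yset j e0).card ≤ (Gset κ P t d e0 j).card + (j.val - t) * x := by
    have hsub : Yset j e0 ⊆ Gset κ P t d e0 j ∪
        (univ.filter (fun c : Fin n => t ≤ c.val ∧ c < j)).biUnion (fun c => Xset κ P d e0 j c) := by
      intro σ hσ
      simp only [Yset, mem_filter, mem_univ, true_and] at hσ
      by_cases hg : ∀ c ∈ bef (P ∘ σ) j.val, rk (κ ∘ σ) (bef (P ∘ σ) j.val) c + 1 = d → c.val < t
      · exact mem_union_left _ (mem_filter.2 ⟨mem_univ _, hσ, hg⟩)
      · push Not at hg
        obtain ⟨c, hc, hr, hct⟩ := hg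
        rw [mem_bef] at hc
        rw [rk_eq_nrk] at hr
        refine mem_union_right _ (mem_biUnion.2 ⟨c, ?_, ?_⟩)
        · exact mem_filter.2 ⟨mem_univ _, hct, Fin.lt_def.2 hc.1⟩
        · exact mem_filter.2 ⟨mem_univ _, hσ, hc.2, hr⟩
    refine (card_le_card hsub).trans ((card_union_le _ _).trans ?_)
    apply Nat.add_le_add_left
    refine card_biUnion_le.trans ?_
    rw [sum_congr rfl (g := fun _ => x)]
    · rw [sum_const, smul_eq_mul]
      apply Nat.mul_le_mul_right
      have hinj : (univ.filter (fun c : Fin n => t ≤ c.val ∧ c < j)).card ≤ (Finset.Ico t j.val).card := by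
        apply card_le_card_of_injOn (fun c => c.val)
        · intro c hc
          have := (mem_filter.1 hc).2
          simp only [coe_Ico, Set.mem_Ico]
          exact ⟨this.1, this.2⟩
        · intro a _ b _ h
          exact Fin.ext h
      rwa [Nat.card_Ico] at hinj
    · intro c hc
      exact card_Xset κ P d e0 j (mem_filter.1 hc).2.2 hzj
  -- combine
  have h3 : j.val * (Yset j e0).card ≤ j.val * (Gset κ P t d e0 j).card +
      (j.val - t) * (Yset j e0).card := by
    calc j.val * (Yset j e0).card ≤ j.val * ((Gset κ P t d e0 j).card + (j.val - t) * x) :=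
          Nat.mul_le_mul_left _ h2
      _ = j.val * (Gset κ P t d e0 j).card + (j.val - t) * (j.val * x) := by ring
      _ ≤ _ := by
          apply Nat.add_le_add_left
          exact Nat.mul_le_mul_left _ h1
  have h4 : j.val * (Yset j e0).card = t * (Yset j e0).card + (j.val - t) * (Yset j e0).card := by
    rw [← Nat.add_mul]
    congr 1
    omega
  omega

/-- the success probability of the rule with sample size `t` -/
noncomputable def aval (n t : ℕ) : ℝ :=
  (∑ j ∈ (range n).filter (fun j => t ≤ j), if j = 0 then (1 : ℝ) else (t : ℝ) / j) / n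

open Classical in
theorem card_sel_ge (κ : Fin n → α) (hκ : Function.Injective κ) (P : Fin n → Prop) (t d : ℕ)
    (e0 : Fin n) (hP : P e0)
    (hr : (univ.filter (fun f => P f ∧ κ e0 < κ f)).card < d) :
    (n.factorial : ℝ) * aval n t ≤
      ((univ.filter (fun σ : Equiv.Perm (Fin n) =>
        sel (κ ∘ σ) (P ∘ σ) t d (σ.symm e0))).card : ℝ) := by
  -- split according to the position of e0
  have h1 : ∑ j : Fin n, (univ.filter (fun σ : Equiv.Perm (Fin n) =>
      σ j = e0 ∧ sel (κ ∘ σ) (P ∘ σ) t d j)).card ≤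
      (univ.filter (fun σ : Equiv.Perm (Fin n) => sel (κ ∘ σ) (P ∘ σ) t d (σ.symm e0))).card := by
    rw [← card_biUnion]
    · apply card_le_card
      intro σ hσ
      obtain ⟨j, _, h⟩ := mem_biUnion.1 hσ
      simp only [mem_filter, mem_univ, true_and] at h ⊢
      have : σ.symm e0 = j := by rw [← h.1]; simp
      rw [this]
      exact h.2
    · intro a _ b _ hab
      rw [Function.onFun, Finset.disjoint_left]
      intro σ ha hb
      simp only [mem_filter, mem_univ, true_and] at ha hb
      exact hab (σ.injective (ha.1.trans hb.1.symm))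
  have h2 : ∀ j : Fin n, t ≤ j.val → Gset κ P t d e0 j ⊆
      univ.filter (fun σ : Equiv.Perm (Fin n) => σ j = e0 ∧ sel (κ ∘ σ) (P ∘ σ) t d j) := by
    intro j htj σ hσ
    simp only [Gset, mem_filter, mem_univ, true_and] at hσ ⊢
    refine ⟨hσ.1, htj, ?_, ?_, hσ.2⟩
    · simp [hσ.1, hP]
    · rw [rk_eq_nrk, hσ.1]
      refine lt_of_le_of_lt ?_ hr
      apply card_le_card
      intro f hf
      simp only [mem_filter, mem_univ, true_and] at hf ⊢
      exact hf.2
  have hn : 0 < n := Fin.pos e0
  have h3 : ∀ j : Fin n, t ≤ j.val →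
      (if j.val = 0 then (1 : ℝ) else (t : ℝ) / j.val) * ((n.factorial : ℝ) / n) ≤
      ((univ.filter (fun σ : Equiv.Perm (Fin n) =>
        σ j = e0 ∧ sel (κ ∘ σ) (P ∘ σ) t d j)).card : ℝ) := by
    intro j htj
    have hY : ((n.factorial : ℝ) / n) = ((Yset j e0).card : ℝ) := by
      rw [div_eq_iff (by positivity)]
      have := card_Yset j e0
      rw [mul_comm]
      exact_mod_cast this.symm
    rw [hY]
    refine le_trans ?_ (Nat.cast_le.2 (card_le_card (h2 j htj)))
    by_cases h0 : j.val = 0
    · rw [if_pos h0, one_mul]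
      apply Nat.cast_le.2
      apply card_le_card
      intro σ hσ
      simp only [Yset, Gset, mem_filter, mem_univ, true_and] at hσ ⊢
      refine ⟨hσ, ?_⟩
      intro c hc
      rw [mem_bef] at hc
      omega
    · rw [if_neg h0, div_mul_eq_mul_div, div_le_iff₀ (by positivity)]
      have := card_Gset κ hκ P t d e0 j htj
      rw [mul_comm ((Gset κ P t d e0 j).card : ℝ)]
      exact_mod_cast this
  have h4 : (n.factorial : ℝ) * aval n t ≤ ∑ j : Fin n, ((univ.filter (fun σ : Equiv.Perm (Fin n) =>
      σ j = e0 ∧ sel (κ ∘ σ) (P ∘ σ) t d j)).card : ℝ) := by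
    have h5 : (n.factorial : ℝ) * aval n t = ∑ j : Fin n, (if t ≤ j.val then
        (if j.val = 0 then (1 : ℝ) else (t : ℝ) / j.val) * ((n.factorial : ℝ) / n) else 0) := by
      unfold aval
      rw [sum_filter, Finset.sum_range (fun j => if t ≤ j then (if j = 0 then (1 : ℝ) else (t : ℝ) / j) else 0)]
      rw [mul_div_assoc', mul_comm, mul_div_assoc, sum_mul]
      apply sum_congr rfl
      intro j _
      split_ifs <;> simp
    rw [h5]
    apply sum_le_sum
    intro j _
    by_cases h : t ≤ j.val
    · rw [if_pos h]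
      exact h3 j h
    · rw [if_neg h]
      positivity
  refine h4.trans ?_
  exact_mod_cast h1

end Count

end Pool.Agent.Work.MP_3bf421_lc_SW
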