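import Pool.Agent.Work.MP_3bf421_lc_SW.Aval

set_option autoImplicit false

/-!
The block decomposition for a fixed order of the labels.
-/

namespace Pool.Agent.Work.MP_3bf421_lc_SW

open Finset

/-- `v` is the last label of the label set `s` in the order of the labels given by `π` -/
def IsLast (π : ℕ → ℕ) (s : Finset ℕ) (v : ℕ) : Prop := v ∈ s ∧ ∀ u ∈ s, π u ≤ π v

theorem IsLast.unique {π : ℕ → ℕ} (hπ : Function.Injective π) {s : Finset ℕ} {v v' : ℕ}
    (h : IsLast π s v) (h' : IsLast π s v') : v = v' :=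
  hπ (le_antisymm (h'.2 v h.1) (h.2 v' h'.1))

theorem exists_isLast (π : ℕ → ℕ) {s : Finset ℕ} (hs : s.Nonempty) : ∃ v, IsLast π s v := by
  obtain ⟨v, hv, h⟩ := exists_max_image s π hs
  exact ⟨v, hv, h⟩

theorem isLast_congr {π π' : ℕ → ℕ} {s : Finset ℕ} (h : ∀ u ∈ s, π u = π' u) (v : ℕ) :
    IsLast π s v ↔ IsLast π' s v := by
  unfold IsLast
  constructor
  · rintro ⟨h1, h2⟩
    exact ⟨h1, fun u hu => by rw [← h u hu, ← h v h1]; exact h2 u hu⟩
  · rintro ⟨h1, h2⟩
    exact ⟨h1, fun u hu => by rw [h u hu, h v h1]; exact h2 u hu⟩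

theorem sel_congr {α : Type*} [LinearOrder α] {n : ℕ} {κ κ' : Fin n → α} {P P' : Fin n → Prop}
    {t d : ℕ} {i : Fin n} (h1 : ∀ j, j ≤ i → κ j = κ' j) (h2 : ∀ j, j ≤ i → (P j ↔ P' j)) :
    sel κ P t d i ↔ sel κ' P' t d i := by
  have hb : bef P i.val = bef P' i.val := by
    ext j
    rw [mem_bef, mem_bef]
    constructor
    · rintro ⟨h, h'⟩; exact ⟨h, (h2 j (Fin.le_def.2 h.le)).1 h'⟩
    · rintro ⟨h, h'⟩; exact ⟨h, (h2 j (Fin.le_def.2 h.le)).2 h'⟩
  have hr : ∀ c, c ≤ i → rk κ (bef P i.val) c = rk κ' (bef P' i.val) c := by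
    intro c hc
    unfold rk
    rw [hb]
    congr 1
    apply filter_congr
    intro f hf
    rw [mem_bef] at hf
    rw [h1 c hc, h1 f (Fin.le_def.2 hf.1.le)]
  unfold sel
  rw [h2 i le_rfl, hr i le_rfl]
  constructor
  · rintro ⟨a, b, c, e⟩
    refine ⟨a, b, c, fun x hx hxr => e x (hb ▸ hx) ?_⟩
    rw [mem_bef] at hx
    rw [hr x (Fin.le_def.2 hx.1.le)]; exact hxr
  · rintro ⟨a, b, c, e⟩
    refine ⟨a, b, c, fun x hx hxr => e x (hb ▸ hx) ?_⟩
    rw [mem_bef] at hx
    rw [← hr x (Fin.le_def.2 hx.1.le)]; exact hxr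

section Fixed

variable {n : ℕ}

open Classical in
/-- for a fixed order `π` of the labels and a fixed tie-breaking `l` the total selected weight,
summed over all arrival orders -/
theorem fixed_order (S : Fin n → Finset ℕ) (w : Fin n → ℝ) (hw : ∀ e, 0 ≤ w e) (d : ℕ → ℕ)
    (π : ℕ → ℕ) (hπ : Function.Injective π) (l : Equiv.Perm (Fin n)) (t : ℕ)
    (I : Finset (Fin n)) (φ : Fin n → ℕ) (hφ : ∀ v, (I.filter (fun e => φ e = v)).card ≤ d v) :
    (n.factorial : ℝ) * aval n t * ∑ e ∈ I, (if IsLast π (S e) (φ e) then w e else 0) ≤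
      ∑ σ : Equiv.Perm (Fin n), ∑ i : Fin n,
        if (∃ v, sel (fun j => toLex (w (σ j), l (σ j))) (fun j => IsLast π (S (σ j)) v) t (d v) i)
        then w (σ i) else 0 := by
  set κ : Fin n → ℝ ×ₗ Fin n := fun e => toLex (w e, l e) with hκdef
  have hκ : Function.Injective κ := by
    intro a b h
    have h1 : (w a, l a) = (w b, l b) := toLex.injective h
    exact l.injective (Prod.mk.inj h1).2
  have hmono : ∀ e f, κ e < κ f → w e ≤ w f := by
    intro e f h
    rw [hκdef, Prod.Lex.toLex_lt_toLex] at h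
    rcases h with h | h
    · exact h.le
    · exact h.1.le
  set P : ℕ → Fin n → Prop := fun v e => IsLast π (S e) v with hP
  set B : ℕ → Finset (Fin n) := fun v => univ.filter (fun e => P v e) with hB
  set U : Finset ℕ := univ.biUnion S with hU
  -- step 1: exchange the sums
  have h1 : ∀ σ : Equiv.Perm (Fin n), (∑ i : Fin n,
      if (∃ v, sel (fun j => toLex (w (σ j), l (σ j))) (fun j => IsLast π (S (σ j)) v) t (d v) i)
        then w (σ i) else 0) = ∑ e : Fin n,
      if (∃ v, sel (κ ∘ σ) (P v ∘ σ) t (d v) (σ.symm e)) then w e else 0 := by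
    intro σ
    rw [← Equiv.sum_comp σ (fun e => if (∃ v, sel (κ ∘ σ) (P v ∘ σ) t (d v) (σ.symm e)) then w e else 0)]
    apply sum_congr rfl
    intro i _
    rw [Equiv.symm_apply_apply]
    rfl
  rw [sum_congr rfl fun σ _ => h1 σ, sum_comm]
  -- step 2: lower bound for each element of the top
  have h2 : ∀ v, ∀ e ∈ top κ (B v) (d v), (n.factorial : ℝ) * aval n t * w e ≤
      ∑ σ : Equiv.Perm (Fin n), if (∃ v, sel (κ ∘ σ) (P v ∘ σ) t (d v) (σ.symm e)) then w e else 0 := by
    intro v e he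
    have he' := mem_filter.1 he
    have hPe : P v e := (mem_filter.1 he'.1).2
    have hr : (univ.filter (fun f => P v f ∧ κ e < κ f)).card < d v := by
      refine lt_of_le_of_lt (card_le_card ?_) he'.2
      intro f hf
      simp only [mem_filter, mem_univ, true_and, hB] at hf ⊢
      exact hf
    have hc := card_sel_ge κ hκ (P v) t (d v) e hPe hr
    have h3 : (∑ σ : Equiv.Perm (Fin n), if (∃ v, sel (κ ∘ σ) (P v ∘ σ) t (d v) (σ.symm e)) then w e else 0)
        = ((univ.filter (fun σ : Equiv.Perm (Fin n) =>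
          ∃ v, sel (κ ∘ σ) (P v ∘ σ) t (d v) (σ.symm e))).card : ℝ) * w e := by
      rw [← sum_filter, sum_const, nsmul_eq_mul]
    rw [h3]
    apply mul_le_mul_of_nonneg_right _ (hw e)
    refine hc.trans ?_
    apply Nat.cast_le.2
    apply card_le_card
    intro σ hσ
    simp only [mem_filter, mem_univ, true_and] at hσ ⊢
    exact ⟨v, hσ⟩
  -- step 3: sum over the blocks
  have hdisj : ∀ v v', v ≠ v' → Disjoint (top κ (B v) (d v)) (top κ (B v') (d v')) := by
    intro v v' hne
    rw [Finset.disjoint_left]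
    intro e he he'
    have h1 : P v e := (mem_filter.1 (mem_filter.1 he).1).2
    have h2 : P v' e := (mem_filter.1 (mem_filter.1 he').1).2
    exact hne (IsLast.unique hπ h1 h2)
  have h4 : ∑ v ∈ U, ∑ e ∈ top κ (B v) (d v), (n.factorial : ℝ) * aval n t * w e ≤
      ∑ e : Fin n, ∑ σ : Equiv.Perm (Fin n),
        if (∃ v, sel (κ ∘ σ) (P v ∘ σ) t (d v) (σ.symm e)) then w e else 0 := by
    calc ∑ v ∈ U, ∑ e ∈ top κ (B v) (d v), (n.factorial : ℝ) * aval n t * w e
        ≤ ∑ v ∈ U, ∑ e ∈ top κ (B v) (d v), ∑ σ : Equiv.Perm (Fin n),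
          (if (∃ v, sel (κ ∘ σ) (P v ∘ σ) t (d v) (σ.symm e)) then w e else 0) :=
          sum_le_sum fun v _ => sum_le_sum fun e he => h2 v e he
      _ = ∑ e ∈ U.biUnion (fun v => top κ (B v) (d v)), ∑ σ : Equiv.Perm (Fin n),
          (if (∃ v, sel (κ ∘ σ) (P v ∘ σ) t (d v) (σ.symm e)) then w e else 0) := by
          refine (sum_biUnion (s := U) (t := fun v => top κ (B v) (d v)) ?_).symm
          intro v _ v' _ hne
          exact hdisj v v' hne
      _ ≤ _ := by
          apply sum_le_sum_of_subset_of_nonneg (subset_univ _)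
          intro e _ _
          apply sum_nonneg
          intro σ _
          split_ifs
          · exact hw e
          · exact le_rfl
  refine le_trans ?_ h4
  simp_rw [← mul_sum]
  have hav : 0 ≤ (n.factorial : ℝ) * aval n t := by
    apply mul_nonneg (by positivity)
    unfold aval
    apply div_nonneg _ (by positivity)
    apply sum_nonneg
    intro j _
    split_ifs <;> positivity
  apply mul_le_mul_of_nonneg_left _ hav
  -- step 4: optimality of the top in each block
  rw [← sum_filter]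
  have h5 : ∑ e ∈ I.filter (fun e => IsLast π (S e) (φ e)), w e =
      ∑ v ∈ U, ∑ e ∈ (I.filter (fun e => IsLast π (S e) (φ e))).filter (fun e => φ e = v), w e := by
    rw [sum_fiberwise_of_maps_to]
    intro e he
    have := (mem_filter.1 he).2.1
    exact mem_biUnion.2 ⟨e, mem_univ _, this⟩
  rw [h5]
  apply sum_le_sum
  intro v _
  apply sum_le_sum_top hκ hw hmono
  · intro e he
    have h1 := mem_filter.1 he
    have h2 := (mem_filter.1 h1.1).2
    rw [h1.2] at h2
    exact mem_filter.2 ⟨mem_univ _, h2⟩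
  · refine le_trans (card_le_card ?_) (hφ v)
    intro e he
    have h1 := mem_filter.1 he
    exact mem_filter.2 ⟨(mem_filter.1 h1.1).1, h1.2⟩

open Classical in
/-- random order of the labels: each label of `s` is last with the same probability -/
theorem perm_last {M : ℕ} (s : Finset ℕ) (ι : ℕ → Fin M) (hι : Set.InjOn ι s) {v : ℕ}
    (hv : v ∈ s) : s.card * (univ.filter (fun τ : Equiv.Perm (Fin M) =>
      ∀ x ∈ s, τ (ι x) ≤ τ (ι v))).card = M.factorial := by
  set C : ℕ → Finset (Equiv.Perm (Fin M)) := fun u => univ.filter (fun τ : Equiv.Perm (Fin M) =>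
      ∀ x ∈ s, τ (ι x) ≤ τ (ι u)) with hC
  have h1 : ∀ u ∈ s, (C u).card = (C v).card := by
    intro u hu
    have hsw : ∀ x ∈ s, ∃ x' ∈ s, Equiv.swap (ι u) (ι v) (ι x) = ι x' := by
      intro x hx
      by_cases ha : ι x = ι u
      · exact ⟨v, hv, by rw [ha, Equiv.swap_apply_left]⟩
      by_cases hb : ι x = ι v
      · exact ⟨u, hu, by rw [hb, Equiv.swap_apply_right]⟩
      · exact ⟨x, hx, Equiv.swap_apply_of_ne_of_ne ha hb⟩
    apply Finset.card_equiv (Equiv.mulRight (Equiv.swap (ι u) (ι v)))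
    intro τ
    simp only [hC, mem_filter, mem_univ, true_and, Equiv.coe_mulRight, Equiv.Perm.coe_mul,
      Function.comp_apply, Equiv.swap_apply_right]
    constructor
    · intro h x hx
      obtain ⟨x', hx', he⟩ := hsw x hx
      rw [he]; exact h x' hx'
    · intro h x hx
      obtain ⟨x', hx', he⟩ := hsw x hx
      have := h x' hx'
      rw [← he, Equiv.swap_apply_self] at this
      exact this
  have h2 : ∑ u ∈ s, (C u).card = M.factorial := by
    have h3 : ∀ u ∈ s, (C u).card = ∑ τ : Equiv.Perm (Fin M),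
        if (∀ x ∈ s, τ (ι x) ≤ τ (ι u)) then 1 else 0 := by
      intro u _
      rw [hC, card_filter]
    rw [sum_congr rfl h3, sum_comm]
    have h4 : ∀ τ : Equiv.Perm (Fin M), (∑ u ∈ s,
        if (∀ x ∈ s, τ (ι x) ≤ τ (ι u)) then 1 else 0) = 1 := by
      intro τ
      obtain ⟨m, hm, hmax⟩ := exists_max_image s (fun x => τ (ι x)) ⟨v, hv⟩
      rw [sum_eq_single m]
      · rw [if_pos hmax]
      · intro b hb hbm
        rw [if_neg]
        intro h
        apply hbm
        apply hι hb hm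
        exact τ.injective (le_antisymm (hmax b hb) (h m hm))
      · intro h; exact absurd hm h
    rw [sum_congr rfl fun τ _ => h4 τ]
    simp [Fintype.card_perm]
  rw [← h2, sum_congr rfl h1, sum_const, smul_eq_mul]

end Fixed

end Pool.Agent.Work.MP_3bf421_lc_SW
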