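import Pool.Agent.Work.MP_3bf421_lc_SW.Appear
import Pool.Agent.Work.MP_3bf421_lc_SW.Comb

set_option autoImplicit false

/-!
The sandwich theorem.
-/

namespace Pool.Agent.Work.MP_3bf421_lc_SW

open Finset

section Fixed

variable {n : ℕ}

open Classical in
/-- for a fixed order `π` of the labels and a fixed tie-breaking `l` the total selected weight,
summed over all arrival orders -/
theorem fixed_order_comb (S : Fin n → Finset ℕ) (w : Fin n → ℝ) (hw : ∀ e, 0 ≤ w e) (d : ℕ → ℕ)
    (π : ℕ → ℕ) (hπ : Function.Injective π) (l : Equiv.Perm (Fin n)) {t : ℕ}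
    (ht : Real.exp (-1) ≤ aval n t)
    (I : Finset (Fin n)) (φ : Fin n → ℕ) (hφ : ∀ v, (I.filter (fun e => φ e = v)).card ≤ d v) :
    (n.factorial : ℝ) * ∑ e ∈ I, (if IsLast π (S e) (φ e) then al (d (φ e)) * w e else 0) ≤
      ∑ σ : Equiv.Perm (Fin n), ∑ i : Fin n,
        if (∃ v, comb t (fun j => toLex (w (σ j), l (σ j)))
          (fun j => IsLast π (S (σ j)) v) (d v) i) then w (σ i) else 0 := by
  set κ : Fin n → ℝ ×ₗ Fin n := fun e => toLex (w e, l e) with hκdef
  have hκ : Function.Injective κ := by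
    intro a b h
    have h1 : (w a, l a) = (w b, l b) := toLex.injective h
    exact l.injective (Prod.mk.inj h1).2
  have hmono : ∀ e f, κ e < κ f → w e ≤ w f := by
    intro e f h
    rw [hκdef, Prod.Lex.toLex_lt_toLex] at h
    rcases h with h | h
    · exact h.le
    · exact h.1.le
  set P : ℕ → Fin n → Prop := fun v e => IsLast π (S e) v with hP
  set U : Finset ℕ := univ.biUnion S with hU
  -- step 1: exchange the sums
  have h1 : ∀ σ : Equiv.Perm (Fin n), (∑ i : Fin n,
      if (∃ v, comb t (fun j => toLex (w (σ j), l (σ j))) (fun j => IsLast π (S (σ j)) v) (d v) i)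
        then w (σ i) else 0) = ∑ e : Fin n,
      if (∃ v, comb t (κ ∘ σ) (P v ∘ σ) (d v) (σ.symm e)) then w e else 0 := by
    intro σ
    rw [← Equiv.sum_comp σ (fun e => if (∃ v, comb t (κ ∘ σ) (P v ∘ σ) (d v) (σ.symm e)) then w e else 0)]
    apply sum_congr rfl
    intro i _
    rw [Equiv.symm_apply_apply]
    rfl
  rw [sum_congr rfl fun σ _ => h1 σ, sum_comm]
  -- step 2: values of the blocks
  set J : ℕ → Finset (Fin n) := fun v =>
    (I.filter (fun e => IsLast π (S e) (φ e))).filter (fun e => φ e = v) with hJ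
  have hval : ∀ v, (n.factorial : ℝ) * (al (d v) * ∑ e ∈ J v, w e) ≤ ∑ e ∈ univ.filter (P v),
      ((univ.filter (fun σ : Equiv.Perm (Fin n) =>
        comb t (κ ∘ σ) (P v ∘ σ) (d v) (σ.symm e))).card : ℝ) * w e := by
    intro v
    apply comb_value ht κ hκ (P v) (d v) hw hmono
    · intro e he
      have h1 := mem_filter.1 he
      have h2 := (mem_filter.1 h1.1).2
      rw [h1.2] at h2
      exact h2
    · refine le_trans (card_le_card ?_) (hφ v)
      intro e he
      have h1 := mem_filter.1 he
      exact mem_filter.2 ⟨(mem_filter.1 h1.1).1, h1.2⟩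
  -- step 3: sum over the blocks
  have h4 : ∑ v ∈ U, (n.factorial : ℝ) * (al (d v) * ∑ e ∈ J v, w e) ≤
      ∑ e : Fin n, ∑ σ : Equiv.Perm (Fin n),
        if (∃ v, comb t (κ ∘ σ) (P v ∘ σ) (d v) (σ.symm e)) then w e else 0 := by
    have hpt : ∀ v, ∀ e ∈ univ.filter (P v), ((univ.filter (fun σ : Equiv.Perm (Fin n) =>
        comb t (κ ∘ σ) (P v ∘ σ) (d v) (σ.symm e))).card : ℝ) * w e ≤
        ∑ σ : Equiv.Perm (Fin n),
          (if (∃ v, comb t (κ ∘ σ) (P v ∘ σ) (d v) (σ.symm e)) then w e else 0) := by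
      intro v e _
      rw [← sum_filter, sum_const, nsmul_eq_mul]
      apply mul_le_mul_of_nonneg_right _ (hw e)
      apply Nat.cast_le.2
      apply card_le_card
      intro σ hσ
      simp only [mem_filter, mem_univ, true_and] at hσ ⊢
      exact ⟨v, hσ⟩
    calc ∑ v ∈ U, (n.factorial : ℝ) * (al (d v) * ∑ e ∈ J v, w e)
        ≤ ∑ v ∈ U, ∑ e ∈ univ.filter (P v), ∑ σ : Equiv.Perm (Fin n),
          (if (∃ v, comb t (κ ∘ σ) (P v ∘ σ) (d v) (σ.symm e)) then w e else 0) :=
          sum_le_sum fun v _ => (hval v).trans (sum_le_sum fun e he => hpt v e he)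
      _ = ∑ e ∈ U.biUnion (fun v => univ.filter (P v)), ∑ σ : Equiv.Perm (Fin n),
          (if (∃ v, comb t (κ ∘ σ) (P v ∘ σ) (d v) (σ.symm e)) then w e else 0) := by
          refine (sum_biUnion (s := U) (t := fun v => univ.filter (P v)) ?_).symm
          intro v _ v' _ hne
          rw [Function.onFun, Finset.disjoint_left]
          intro e he he'
          exact hne (IsLast.unique hπ (mem_filter.1 he).2 (mem_filter.1 he').2)
      _ ≤ _ := by
          apply sum_le_sum_of_subset_of_nonneg (subset_univ _)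
          intro e _ _
          apply sum_nonneg
          intro σ _
          split_ifs
          · exact hw e
          · exact le_rfl
  refine le_trans (le_of_eq ?_) h4
  rw [← mul_sum]
  congr 1
  rw [← sum_filter]
  have h5 : ∑ e ∈ I.filter (fun e => IsLast π (S e) (φ e)), al (d (φ e)) * w e =
      ∑ v ∈ U, ∑ e ∈ J v, al (d (φ e)) * w e := by
    rw [sum_fiberwise_of_maps_to]
    intro e he
    have := (mem_filter.1 he).2.1
    exact mem_biUnion.2 ⟨e, mem_univ _, this⟩
  rw [h5]
  apply sum_congr rfl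
  intro v _
  rw [mul_sum]
  apply sum_congr rfl
  intro e he
  rw [(mem_filter.1 he).2]

end Fixed

section Main

variable {n : ℕ}

open Classical in
/-- the rule; it reads weights and label sets up to position `i` only -/
noncomputable def drule (M t : ℕ) (d : ℕ → ℕ) (τ : Equiv.Perm (Fin M)) (ρ : Equiv.Perm (Fin n))
    (i : Fin n) (w : Fin n → ℝ) (S : Fin n → Finset ℕ) : Bool :=
  decide (∃ v, comb t (fun j => toLex (w j, ρ j)) (fun j => IsLast (prio M τ S) (S j) v) (d v) i)

theorem drule_iff (M t : ℕ) (d : ℕ → ℕ) (τ : Equiv.Perm (Fin M)) (ρ : Equiv.Perm (Fin n))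
    (i : Fin n) (w : Fin n → ℝ) (S : Fin n → Finset ℕ) :
    drule M t d τ ρ i (fun j => if j ≤ i then w j else 0) (fun j => if j ≤ i then S j else ∅) = true ↔
      ∃ v, comb t (fun j => toLex (w j, ρ j)) (fun j => IsLast (prio M τ S) (S j) v) (d v) i := by
  classical
  unfold drule
  rw [decide_eq_true_iff]
  apply exists_congr
  intro v
  apply comb_congr
  · intro j hj
    show toLex ((if j ≤ i then w j else 0), ρ j) = _
    rw [if_pos hj]
  · intro j hj
    show IsLast (prio M τ (hide i S)) (if j ≤ i then S j else ∅) v ↔ _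
    rw [if_pos hj]
    apply isLast_congr
    intro u hu
    exact prio_hide M τ S hj hu

open Classical in
theorem sandwich (r n : ℕ) (d : ℕ → ℕ) :
    ∃ (m : ℕ) (p : Fin m → ℝ), (∀ s, 0 ≤ p s) ∧ (∑ s, p s = 1) ∧
      ∃ D : Fin m → Fin n → (Fin n → ℝ) → (Fin n → Finset ℕ) → Bool,
        ∀ (Ind : Finset (Fin n) → Prop) (S : Fin n → Finset ℕ) (w : Fin n → ℝ),
          (∀ e, (S e).Nonempty ∧ (S e).card ≤ r) → (∀ e, 0 ≤ w e) →
          (∀ F : Finset (Fin n), (∃ π : ℕ → ℕ, Function.Injective π ∧
            ∀ v, (F.filter (fun e => IsLast π (S e) v)).card ≤ d v) → Ind F) →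
          (∀ (s : Fin m) (σ : Equiv.Perm (Fin n)),
            Ind ((univ.filter (fun i => D s i (fun j => if j ≤ i then w (σ j) else 0)
              (fun j => if j ≤ i then S (σ j) else ∅) = true)).image σ)) ∧
          ∀ (I : Finset (Fin n)) (φ : Fin n → ℕ), (∀ e ∈ I, φ e ∈ S e) →
            (∀ v, (I.filter (fun e => φ e = v)).card ≤ d v) →
            (∑ e ∈ I, al (d (φ e)) * w e) / r ≤
              (∑ σ : Equiv.Perm (Fin n), ∑ s : Fin m, p s *
                ∑ i : Fin n, (if D s i (fun j => if j ≤ i then w (σ j) else 0)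
                  (fun j => if j ≤ i then S (σ j) else ∅) = true then w (σ i) else 0))
              / (n.factorial : ℝ) := by
  rcases Nat.eq_zero_or_pos n with hn | hn
  · -- no elements
    subst hn
    refine ⟨1, fun _ => 1, fun _ => zero_le_one, by simp, fun _ i => i.elim0, ?_⟩
    intro Ind S w hS hw h1
    refine ⟨fun s σ => h1 _ ⟨id, Function.injective_id, fun v => ?_⟩, fun I φ _ _ => ?_⟩
    · rw [show (univ.filter (fun i : Fin 0 => _)).image σ = (∅ : Finset (Fin 0)) from
        Subsingleton.elim _ _]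
      simp
    · rw [show I = ∅ from Subsingleton.elim _ _]
      simp
  obtain ⟨t, ht⟩ := exists_aval n hn
  set M := n * r with hM
  set T := Equiv.Perm (Fin M) × Equiv.Perm (Fin n) with hT
  set m := Fintype.card T with hm
  have hmcard : (m : ℝ) = (M.factorial : ℝ) * n.factorial := by
    have h : m = M.factorial * n.factorial := by
      show Fintype.card (Equiv.Perm (Fin M) × Equiv.Perm (Fin n)) = _
      rw [Fintype.card_prod, Fintype.card_perm, Fintype.card_perm, Fintype.card_fin,
        Fintype.card_fin]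
    rw [h]
    push_cast
    rfl
  have hmpos : (0 : ℝ) < m := by rw [hmcard]; positivity
  set enc : Fin m ≃ T := (Fintype.equivFin T).symm with henc
  refine ⟨m, fun _ => 1 / (m : ℝ), fun _ => by positivity, ?_,
    fun s => drule M t d (enc s).1 (enc s).2, ?_⟩
  · rw [sum_const, card_univ, Fintype.card_fin, nsmul_eq_mul]
    field_simp
  intro Ind S w hS hw hdeg
  have hlab : (labs S).card ≤ M := card_labs_le S fun e => (hS e).2
  constructor
  · -- the selected set is degenerate
    intro s σ
    apply hdeg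
    refine ⟨prio M (enc s).1 (S ∘ σ), prio_injective _ _ _, fun v => ?_⟩
    have hκ : Function.Injective (fun j => toLex (w (σ j), (enc s).2 j)) := by
      intro a b h
      have h1 : (w (σ a), (enc s).2 a) = (w (σ b), (enc s).2 b) := toLex.injective h
      exact (enc s).2.injective (Prod.mk.inj h1).2
    have hc := comb_card_le t (fun j => toLex (w (σ j), (enc s).2 j)) hκ
      (fun j => IsLast (prio M (enc s).1 (S ∘ σ)) (S (σ j)) v) (d v)
    refine le_trans (card_le_card_of_injOn σ.symm ?_ σ.symm.injective.injOn) hc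
    intro e he
    rw [mem_coe, mem_filter, mem_image] at he
    obtain ⟨⟨i, hi, rfl⟩, hlast⟩ := he
    have hi' := (mem_filter.1 hi).2
    rw [drule_iff M t d (enc s).1 (enc s).2 i (fun j => w (σ j)) (fun j => S (σ j))] at hi'
    obtain ⟨v', hv'⟩ := hi'
    rw [Equiv.symm_apply_apply, mem_coe, mem_filter]
    refine ⟨mem_univ _, ?_⟩
    have h1 : IsLast (prio M (enc s).1 (S ∘ σ)) (S (σ i)) v' := comb_mem hv'
    have h2 : v = v' := IsLast.unique (prio_injective _ _ _) hlast h1
    rw [h2]
    exact hv'
  · intro I φ hφ1 hφ2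
    -- the total weight
    set G : Equiv.Perm (Fin M) → Equiv.Perm (Fin n) → Equiv.Perm (Fin n) → ℝ :=
      fun τ l σ => ∑ i : Fin n, if (∃ v, comb t (fun j => toLex (w (σ j), l (σ j)))
        (fun j => IsLast (prio M τ S) (S (σ j)) v) (d v) i) then w (σ i) else 0 with hG
    have h1 : ∀ σ : Equiv.Perm (Fin n), (∑ s : Fin m, (1 / (m : ℝ)) *
        ∑ i : Fin n, (if drule M t d (enc s).1 (enc s).2 i (fun j => if j ≤ i then w (σ j) else 0)
          (fun j => if j ≤ i then S (σ j) else ∅) = true then w (σ i) else 0)) =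
        (1 / (m : ℝ)) * ∑ τ : Equiv.Perm (Fin M), ∑ l : Equiv.Perm (Fin n), G τ l σ := by
      intro σ
      rw [← mul_sum]
      congr 1
      rw [Equiv.sum_comp enc (fun x : T => ∑ i : Fin n,
        (if drule M t d x.1 x.2 i (fun j => if j ≤ i then w (σ j) else 0)
          (fun j => if j ≤ i then S (σ j) else ∅) = true then w (σ i) else 0)), Fintype.sum_prod_type]
      obtain ⟨π, hπ⟩ := exists_prio_perm S hlab σ
      -- reindex τ by τ * π and ρ by l * σ
      rw [← Equiv.sum_comp (Equiv.mulRight π) (fun τ => ∑ l : Equiv.Perm (Fin n), G τ l σ)]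
      apply sum_congr rfl
      intro τ _
      rw [← Equiv.sum_comp (Equiv.mulRight σ) (fun ρ => ∑ i : Fin n,
        (if drule M t d τ ρ i (fun j => if j ≤ i then w (σ j) else 0)
          (fun j => if j ≤ i then S (σ j) else ∅) = true then w (σ i) else 0))]
      apply sum_congr rfl
      intro l _
      rw [hG]
      apply sum_congr rfl
      intro i _
      have h0 := drule_iff M t d τ (Equiv.mulRight σ l) i (fun j => w (σ j)) (fun j => S (σ j))
      have h2 : ∀ v, (comb t (fun j => toLex (w (σ j), (Equiv.mulRight σ l) j))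
          (fun j => IsLast (prio M τ (fun j => S (σ j))) (S (σ j)) v) (d v) i ↔
          comb t (fun j => toLex (w (σ j), l (σ j)))
          (fun j => IsLast (prio M (Equiv.mulRight π τ) S) (S (σ j)) v) (d v) i) := by
        intro v
        apply comb_congr
        · intro j _
          rfl
        · intro j _
          apply isLast_congr
          intro u hu
          exact hπ τ u (mem_labs.2 ⟨σ j, hu⟩)
      exact if_congr (h0.trans (exists_congr h2)) rfl rfl
    rw [sum_congr rfl fun σ _ => h1 σ, ← mul_sum]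
    -- exchange sums
    have h3 : ∑ σ : Equiv.Perm (Fin n), ∑ τ : Equiv.Perm (Fin M), ∑ l : Equiv.Perm (Fin n), G τ l σ =
        ∑ τ : Equiv.Perm (Fin M), ∑ l : Equiv.Perm (Fin n), ∑ σ : Equiv.Perm (Fin n), G τ l σ := by
      rw [sum_comm]
      apply sum_congr rfl
      intro τ _
      rw [sum_comm]
    have h4 : ∑ τ : Equiv.Perm (Fin M), ∑ _l : Equiv.Perm (Fin n),
        ((n.factorial : ℝ) *
          ∑ e ∈ I, (if IsLast (prio M τ S) (S e) (φ e) then al (d (φ e)) * w e else 0)) ≤
        ∑ τ : Equiv.Perm (Fin M), ∑ l : Equiv.Perm (Fin n), ∑ σ : Equiv.Perm (Fin n), G τ l σ := by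
      apply sum_le_sum
      intro τ _
      apply sum_le_sum
      intro l _
      exact fixed_order_comb S w hw d (prio M τ S) (prio_injective _ _ _) l ht I φ hφ2
    have h5 : ∑ τ : Equiv.Perm (Fin M), ∑ _l : Equiv.Perm (Fin n),
        ((n.factorial : ℝ) *
          ∑ e ∈ I, (if IsLast (prio M τ S) (S e) (φ e) then al (d (φ e)) * w e else 0)) =
        (n.factorial : ℝ) * (n.factorial : ℝ) * ∑ e ∈ I,
          ((univ.filter (fun τ : Equiv.Perm (Fin M) => IsLast (prio M τ S) (S e) (φ e))).card : ℝ)
            * (al (d (φ e)) * w e) := by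
      have h6 : ∀ τ : Equiv.Perm (Fin M), ∑ _l : Equiv.Perm (Fin n),
          ((n.factorial : ℝ) *
          ∑ e ∈ I, (if IsLast (prio M τ S) (S e) (φ e) then al (d (φ e)) * w e else 0)) =
          (n.factorial : ℝ) * (n.factorial : ℝ) *
          ∑ e ∈ I, (if IsLast (prio M τ S) (S e) (φ e) then al (d (φ e)) * w e else 0) := by
        intro τ
        rw [sum_const, card_univ, Fintype.card_perm, Fintype.card_fin, nsmul_eq_mul]
        ring
      rw [sum_congr rfl fun τ _ => h6 τ, ← mul_sum, sum_comm]
      congr 1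
      apply sum_congr rfl
      intro e _
      rw [← sum_filter, sum_const, nsmul_eq_mul]
    -- number of label orders
    have h7 : ∀ e ∈ I, (M.factorial : ℝ) / r ≤
        ((univ.filter (fun τ : Equiv.Perm (Fin M) => IsLast (prio M τ S) (S e) (φ e))).card : ℝ) := by
      intro e he
      have hve := hφ1 e he
      have hcard : 0 < (S e).card := card_pos.2 ⟨_, hve⟩
      have hr : 0 < r := lt_of_lt_of_le hcard (hS e).2
      have hMpos : 0 < M := by rw [hM]; exact Nat.mul_pos hn hr
      have : NeZero M := ⟨by omega⟩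
      have hsub : ∀ u ∈ S e, u ∈ labs S := fun u hu => mem_labs.2 ⟨e, hu⟩
      have hlt : ∀ u ∈ S e, idx S u < M := fun u hu => lt_of_lt_of_le (idx_lt (hsub u hu)) hlab
      have hinj : Set.InjOn (fun u => Fin.ofNat M (idx S u)) (S e) := by
        intro a ha b hb h
        have h1 : idx S a % M = idx S b % M := congrArg Fin.val h
        rw [Nat.mod_eq_of_lt (hlt a ha), Nat.mod_eq_of_lt (hlt b hb)] at h1
        exact idx_injOn S (hsub a ha) (hsub b hb) h1
      have h8 := perm_last (S e) (fun u => Fin.ofNat M (idx S u)) hinj hve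
      have h9 : (univ.filter (fun τ : Equiv.Perm (Fin M) => IsLast (prio M τ S) (S e) (φ e))) =
          (univ.filter (fun τ : Equiv.Perm (Fin M) =>
            ∀ x ∈ S e, τ (Fin.ofNat M (idx S x)) ≤ τ (Fin.ofNat M (idx S (φ e))))) := by
        apply filter_congr
        intro τ _
        have hp : ∀ u ∈ S e, prio M τ S u = (τ (Fin.ofNat M (idx S u))).val := by
          intro u hu
          unfold prio
          rw [dif_pos ⟨hsub u hu, hlt u hu⟩]
          congr 2
          apply Fin.ext
          simp [Nat.mod_eq_of_lt (hlt u hu)]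
        constructor
        · intro h x hx
          have := h.2 x hx
          rw [hp x hx, hp _ hve] at this
          exact this
        · intro h
          refine ⟨hve, fun x hx => ?_⟩
          rw [hp x hx, hp _ hve]
          exact h x hx
      rw [h9]
      rw [div_le_iff₀ (by exact_mod_cast hr)]
      have h10 : M.factorial ≤ (univ.filter (fun τ : Equiv.Perm (Fin M) =>
            ∀ x ∈ S e, τ (Fin.ofNat M (idx S x)) ≤ τ (Fin.ofNat M (idx S (φ e))))).card * r := by
        rw [← h8, mul_comm]
        exact Nat.mul_le_mul_left _ (hS e).2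
      exact_mod_cast h10
    have hval : ∀ e, 0 ≤ al (d (φ e)) * w e := fun e => mul_nonneg (al_nonneg _) (hw e)
    have h8 : ∑ e ∈ I, ((M.factorial : ℝ) / r) * (al (d (φ e)) * w e) ≤ ∑ e ∈ I,
          ((univ.filter (fun τ : Equiv.Perm (Fin M) => IsLast (prio M τ S) (S e) (φ e))).card : ℝ)
            * (al (d (φ e)) * w e) :=
      sum_le_sum fun e he => mul_le_mul_of_nonneg_right (h7 e he) (hval e)
    have hfac : (0 : ℝ) < n.factorial := by positivity
    have hMfac : (0 : ℝ) < M.factorial := by positivity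
    rw [h3]
    rw [h5] at h4
    have h9 : (n.factorial : ℝ) * (n.factorial : ℝ) *
        (((M.factorial : ℝ) / r) * ∑ e ∈ I, al (d (φ e)) * w e) ≤
        ∑ τ : Equiv.Perm (Fin M), ∑ l : Equiv.Perm (Fin n), ∑ σ : Equiv.Perm (Fin n), G τ l σ := by
      refine le_trans ?_ h4
      apply mul_le_mul_of_nonneg_left _ (by positivity)
      rw [mul_sum]
      exact h8
    rw [le_div_iff₀ hfac, hmcard]
    calc (∑ e ∈ I, al (d (φ e)) * w e) / r * (n.factorial : ℝ)
        = 1 / ((M.factorial : ℝ) * n.factorial) * ((n.factorial : ℝ) * (n.factorial : ℝ) *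
        (((M.factorial : ℝ) / r) * ∑ e ∈ I, al (d (φ e)) * w e)) := by
          field_simp
      _ ≤ _ := by
          apply mul_le_mul_of_nonneg_left h9
          positivity

end Main

end Pool.Agent.Work.MP_3bf421_lc_SW
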