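import Mathlib

set_option autoImplicit false

/-!
Ranks in a finite set with an injective key, and the virtual `d`-choice rule on one block.
-/

namespace Pool.Agent.Work.MP_3bf421_lc_SW

open Finset

section Rank

variable {β α : Type*} [DecidableEq β] [LinearOrder α]

/-- number of elements of `B` with larger key -/
noncomputable def rk (κ : β → α) (B : Finset β) (e : β) : ℕ := (B.filter (fun f => κ e < κ f)).card

theorem rk_lt_card {κ : β → α} {B : Finset β} {e : β} (he : e ∈ B) : rk κ B e < B.card := by
  apply Finset.card_lt_card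
  refine ⟨filter_subset _ _, fun h => ?_⟩
  have := h he
  simp at this

theorem rk_strictAnti {κ : β → α} {B : Finset β} {e f : β} (hf : f ∈ B) (h : κ e < κ f) :
    rk κ B f < rk κ B e := by
  apply Finset.card_lt_card
  refine ⟨fun x hx => ?_, fun hh => ?_⟩
  · simp only [mem_filter] at hx ⊢
    exact ⟨hx.1, h.trans hx.2⟩
  · have : f ∈ B.filter (fun g => κ f < κ g) := hh (by simp [hf, h])
    simp at this

theorem lt_of_rk_lt {κ : β → α} (hκ : Function.Injective κ) {B : Finset β} {e f : β}
    (he : e ∈ B) (h : rk κ B f < rk κ B e) : κ e < κ f := by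
  rcases lt_trichotomy (κ e) (κ f) with h1 | h1 | h1
  · exact h1
  · rw [hκ h1] at h
    exact absurd h (lt_irrefl _)
  · have := rk_strictAnti he h1
    omega

theorem rk_injOn {κ : β → α} (hκ : Function.Injective κ) (B : Finset β) :
    Set.InjOn (rk κ B) B := by
  intro e he f hf h
  rcases lt_trichotomy (κ e) (κ f) with h1 | h1 | h1
  · have := rk_strictAnti (B := B) hf h1
    omega
  · exact hκ h1
  · have := rk_strictAnti (B := B) he h1
    omega

theorem rk_image {κ : β → α} (hκ : Function.Injective κ) (B : Finset β) :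
    B.image (rk κ B) = range B.card := by
  apply Finset.eq_of_subset_of_card_le
  · intro k hk
    obtain ⟨e, he, rfl⟩ := mem_image.1 hk
    exact mem_range.2 (rk_lt_card he)
  · rw [card_range, card_image_of_injOn (rk_injOn hκ B)]

theorem exists_rk_eq {κ : β → α} (hκ : Function.Injective κ) {B : Finset β} {k : ℕ}
    (hk : k < B.card) : ∃ e ∈ B, rk κ B e = k := by
  have : k ∈ B.image (rk κ B) := by rw [rk_image hκ]; exact mem_range.2 hk
  obtain ⟨e, he, h⟩ := mem_image.1 this
  exact ⟨e, he, h⟩

/-- the `d` best elements of `B` -/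
noncomputable def top (κ : β → α) (B : Finset β) (d : ℕ) : Finset β := B.filter (fun e => rk κ B e < d)

theorem card_top {κ : β → α} (hκ : Function.Injective κ) (B : Finset β) (d : ℕ) :
    (top κ B d).card = min d B.card := by
  have h1 : (top κ B d).image (rk κ B) = range (min d B.card) := by
    ext k
    simp only [top, mem_image, mem_filter, mem_range, lt_min_iff]
    constructor
    · rintro ⟨e, ⟨he, h⟩, rfl⟩
      exact ⟨h, rk_lt_card he⟩
    · rintro ⟨h1, h2⟩
      obtain ⟨e, he, h⟩ := exists_rk_eq hκ h2
      exact ⟨e, ⟨he, by omega⟩, h⟩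
  have h2 : ((top κ B d).image (rk κ B)).card = (top κ B d).card := by
    apply card_image_of_injOn
    intro e he f hf h
    exact rk_injOn hκ B (mem_filter.1 he).1 (mem_filter.1 hf).1 h
  rw [← h2, h1, card_range]

/-- the `d` best elements have the largest weight among all sets of at most `d` elements -/
theorem sum_le_sum_top {κ : β → α} (hκ : Function.Injective κ) {B J : Finset β} {d : ℕ}
    {w : β → ℝ} (hw : ∀ e, 0 ≤ w e) (hmono : ∀ e f, κ e < κ f → w e ≤ w f)
    (hJ : J ⊆ B) (hd : J.card ≤ d) : ∑ e ∈ J, w e ≤ ∑ e ∈ top κ B d, w e := by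
  classical
  set T := top κ B d with hT
  have hcT : J.card ≤ T.card := by
    rw [hT, card_top hκ]
    exact le_min hd (card_le_card hJ)
  have hdiff : (J \ T).card ≤ (T \ J).card := by
    have h1 := card_sdiff_add_card_inter J T
    have h2 := card_sdiff_add_card_inter T J
    rw [inter_comm] at h2
    omega
  have hkey : ∀ e ∈ J \ T, ∀ f ∈ T \ J, w e ≤ w f := by
    intro e he f hf
    rw [mem_sdiff] at he hf
    apply hmono
    have heB := hJ he.1
    have h1 : d ≤ rk κ B e := by
      by_contra h
      exact he.2 (mem_filter.2 ⟨heB, by omega⟩)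
    have h2 : rk κ B f < d := (mem_filter.1 hf.1).2
    exact lt_of_rk_lt hκ heB (by omega)
  have h3 : ∑ e ∈ J \ T, w e ≤ ∑ e ∈ T \ J, w e := by
    rcases (J \ T).eq_empty_or_nonempty with h0 | h0
    · rw [h0, sum_empty]
      exact sum_nonneg fun e _ => hw e
    · obtain ⟨m, hm, hmax⟩ := exists_max_image (J \ T) w h0
      calc ∑ e ∈ J \ T, w e ≤ ∑ e ∈ J \ T, w m := sum_le_sum hmax
        _ = (J \ T).card * w m := by rw [sum_const, nsmul_eq_mul]
        _ ≤ (T \ J).card * w m := by
            apply mul_le_mul_of_nonneg_right _ (hw m)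
            exact_mod_cast hdiff
        _ = ∑ e ∈ T \ J, w m := by rw [sum_const, nsmul_eq_mul]
        _ ≤ ∑ e ∈ T \ J, w e := sum_le_sum fun f hf => hkey m hm f hf
  have h4 : ∑ e ∈ J, w e = ∑ e ∈ J \ T, w e + ∑ e ∈ J ∩ T, w e := by
    rw [add_comm]; exact (sum_inter_add_sum_sdiff J T w).symm
  have h5 : ∑ e ∈ T, w e = ∑ e ∈ T \ J, w e + ∑ e ∈ T ∩ J, w e := by
    rw [add_comm]; exact (sum_inter_add_sum_sdiff T J w).symm
  rw [h4, h5, inter_comm T J]
  linarith

end Rank

section Block

variable {α : Type*} [LinearOrder α] {n : ℕ}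

/-- block elements that arrive before position `i` -/
noncomputable def bef (P : Fin n → Prop) (i : ℕ) : Finset (Fin n) := by
  classical
  exact univ.filter (fun j => j.val < i ∧ P j)

theorem mem_bef {P : Fin n → Prop} {i : ℕ} {j : Fin n} : j ∈ bef P i ↔ j.val < i ∧ P j := by
  simp [bef]

/-- the virtual `d`-choice rule on the block `P`: position `i` is selected -/
def sel (κ : Fin n → α) (P : Fin n → Prop) (t d : ℕ) (i : Fin n) : Prop :=
  t ≤ i.val ∧ P i ∧ rk κ (bef P i.val) i < d ∧
    ∀ c ∈ bef P i.val, rk κ (bef P i.val) c + 1 = d → c.val < t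

theorem sel_card_aux (κ : Fin n → α) (hκ : Function.Injective κ) (P : Fin n → Prop) (t d : ℕ)
    (i : ℕ) : ∃ Q : Finset (Fin n), Q.card ≤ d ∧ (∀ j, j.val < i → sel κ P t d j → j ∈ Q) ∧
      (∀ j ∈ bef P i, j.val < t → rk κ (bef P i) j < d → j ∈ Q) ∧ Q ⊆ bef P i := by
  classical
  induction i with
  | zero => 
    refine ⟨∅, by simp, ?_, ?_, by simp⟩
    · intro j hj; omega
    · intro j hj; rw [mem_bef] at hj; omega
  | succ i ih =>
    obtain ⟨Q, hQ1, hQ2, hQ3, hQ4⟩ := ih
    by_cases hin : i < n
    swap
    · have : bef P (i + 1) = bef P i := by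
        ext j; rw [mem_bef, mem_bef]
        constructor
        · rintro ⟨_, h⟩; exact ⟨by have := j.2; omega, h⟩
        · rintro ⟨_, h⟩; exact ⟨by have := j.2; omega, h⟩
      refine ⟨Q, hQ1, ?_, ?_, ?_⟩
      · intro j hj; exact hQ2 j (by have := j.2; omega)
      · rw [this]; exact hQ3
      · rw [this]; exact hQ4
    set x : Fin n := ⟨i, hin⟩ with hx
    -- monotonicity of ranks
    have hsub : bef P i ⊆ bef P (i + 1) := by
      intro j hj; rw [mem_bef] at hj ⊢; exact ⟨by omega, hj.2⟩
    have hrk : ∀ j, rk κ (bef P i) j ≤ rk κ (bef P (i + 1)) j := fun j =>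
      card_le_card (filter_subset_filter _ hsub)
    by_cases ht : i < t
    · -- still in the sample: take the top of everything
      refine ⟨top κ (bef P (i + 1)) d, ?_, ?_, ?_, filter_subset _ _⟩
      · rw [card_top hκ]; exact min_le_left _ _
      · intro j hj hs
        have := hs.1
        omega
      · intro j hj _ h
        exact mem_filter.2 ⟨hj, h⟩
    by_cases hs : sel κ P t d x
    swap
    · refine ⟨Q, hQ1, ?_, ?_, hQ4.trans hsub⟩
      · intro j hj hsj
        rcases Nat.lt_succ_iff_lt_or_eq.1 hj with h | h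
        · exact hQ2 j h hsj
        · have : j = x := Fin.ext h
          exact absurd (this ▸ hsj) hs
      · intro j hj hjt h
        rw [mem_bef] at hj
        exact hQ3 j (mem_bef.2 ⟨by omega, hj.2⟩) hjt (lt_of_le_of_lt (hrk j) h)
    -- x is selected
    obtain ⟨hs1, hs2, hs3, hs4⟩ := id hs
    have hxbef : x ∈ bef P (i + 1) := mem_bef.2 ⟨by simp [hx], hs2⟩
    have hxi : (x : Fin n).val = i := rfl
    rw [hxi] at hs3 hs4
    by_cases hcard : (bef P i).card < d
    · -- few elements so far
      refine ⟨insert x (bef P i), ?_, ?_, ?_, ?_⟩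
      · exact (card_insert_le _ _).trans hcard
      · intro j hj hsj
        rcases Nat.lt_succ_iff_lt_or_eq.1 hj with h | h
        · exact mem_insert_of_mem (hQ4 (hQ2 j h hsj))
        · rw [show j = x from Fin.ext h]; exact mem_insert_self _ _
      · intro j hj hjt _
        rw [mem_bef] at hj
        exact mem_insert_of_mem (mem_bef.2 ⟨by omega, hj.2⟩)
      · intro j hj
        rcases mem_insert.1 hj with h | h
        · rw [h]; exact hxbef
        · exact hsub h
    · -- the cut-off element is in the sample and is pushed out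
      have hd : 1 ≤ d := by omega
      obtain ⟨c, hc, hcr⟩ := exists_rk_eq hκ (B := bef P i) (k := d - 1) (by omega)
      have hct : c.val < t := hs4 c hc (by omega)
      have hcQ : c ∈ Q := hQ3 c hc hct (by omega)
      have hcx : κ c < κ x := by
        rcases lt_trichotomy (κ c) (κ x) with h | h | h
        · exact h
        · have := hκ h
          rw [this] at hct
          simp [hx] at hct
          omega
        · -- then x has rank at least d
          exfalso
          have : rk κ (bef P i) c < rk κ (bef P i) x := rk_strictAnti hc h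
          omega
      have hc_out : d ≤ rk κ (bef P (i + 1)) c := by
        have : rk κ (bef P i) c < rk κ (bef P (i + 1)) c := by
          apply card_lt_card
          refine ⟨filter_subset_filter _ hsub, fun hh => ?_⟩
          have : x ∈ (bef P i).filter (fun f => κ c < κ f) := hh (mem_filter.2 ⟨hxbef, hcx⟩)
          have := mem_bef.1 (mem_filter.1 this).1
          omega
        omega
      refine ⟨insert x (Q.erase c), ?_, ?_, ?_, ?_⟩
      · have h1 := card_insert_le x (Q.erase c)
        have h2 := card_erase_of_mem hcQ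
        have h3 : 0 < Q.card := card_pos.2 ⟨c, hcQ⟩
        omega
      · intro j hj hsj
        rcases Nat.lt_succ_iff_lt_or_eq.1 hj with h | h
        · refine mem_insert_of_mem (mem_erase.2 ⟨?_, hQ2 j h hsj⟩)
          rintro rfl
          have := hsj.1
          omega
        · rw [show j = x from Fin.ext h]; exact mem_insert_self _ _
      · intro j hj hjt h
        rw [mem_bef] at hj
        refine mem_insert_of_mem (mem_erase.2 ⟨?_, hQ3 j (mem_bef.2 ⟨by omega, hj.2⟩) hjt
          (lt_of_le_of_lt (hrk j) h)⟩)
        rintro rfl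
        omega
      · intro j hj
        rcases mem_insert.1 hj with h | h
        · rw [h]; exact hxbef
        · exact hsub (hQ4 (mem_of_mem_erase h))

open Classical in
/-- the virtual rule selects at most `d` elements of the block -/
theorem sel_card_le (κ : Fin n → α) (hκ : Function.Injective κ) (P : Fin n → Prop) (t d : ℕ) :
    (univ.filter (fun i => sel κ P t d i)).card ≤ d := by
  obtain ⟨Q, h1, h2, -, -⟩ := sel_card_aux κ hκ P t d n
  refine (card_le_card ?_).trans h1
  intro j hj
  exact h2 j j.2 (mem_filter.1 hj).2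

end Block

end Pool.Agent.Work.MP_3bf421_lc_SW
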