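import Pool.Agent.Work.MP_3bf421_lc_SW.Fixed

set_option autoImplicit false

/-!
The threshold rule for large capacities.
-/

namespace Pool.Agent.Work.MP_3bf421_lc_SW

open Finset

section Top

variable {β α : Type*} [DecidableEq β] [LinearOrder α]

theorem top_mono (κ : β → α) (B : Finset β) {k k' : ℕ} (h : k' ≤ k) :
    top κ B k' ⊆ top κ B k := by
  intro e he
  have := mem_filter.1 he
  exact mem_filter.2 ⟨this.1, lt_of_lt_of_le this.2 h⟩

theorem sum_top_scale {κ : β → α} (hκ : Function.Injective κ) (B : Finset β) {k k' : ℕ}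
    (hk : k' ≤ k) {w : β → ℝ} (hw : ∀ e, 0 ≤ w e) (hmono : ∀ e f, κ e < κ f → w e ≤ w f) :
    (k' : ℝ) * ∑ e ∈ top κ B k, w e ≤ k * ∑ e ∈ top κ B k', w e := by
  have hS : 0 ≤ ∑ e ∈ top κ B k', w e := sum_nonneg fun e _ => hw e
  rcases Nat.eq_zero_or_pos k' with h0 | h0
  · rw [h0]
    simp only [Nat.cast_zero, zero_mul]
    rw [h0] at hS
    exact mul_nonneg (by positivity) hS
  rcases le_or_gt B.card k' with hB | hB
  · -- everything is in the top
    have h1 : ∀ j, k' ≤ j → top κ B j = B := by
      intro j hj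
      apply filter_true_of_mem
      intro e he
      exact lt_of_lt_of_le (rk_lt_card he) (hB.trans hj)
    rw [h1 k hk, h1 k' le_rfl] at *
    apply mul_le_mul_of_nonneg_right _ hS
    exact_mod_cast hk
  · have hc' : (top κ B k').card = k' := by
      rw [card_top hκ]; exact min_eq_left hB.le
    have hne : (top κ B k').Nonempty := card_pos.1 (by omega)
    obtain ⟨m, hm, hmin⟩ := exists_min_image (top κ B k') w hne
    have h1 : (k' : ℝ) * w m ≤ ∑ e ∈ top κ B k', w e := by
      calc (k' : ℝ) * w m = ∑ e ∈ top κ B k', w m := by rw [sum_const, hc', nsmul_eq_mul]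
        _ ≤ _ := sum_le_sum hmin
    have hsub := top_mono κ B hk
    have h2 : ∑ e ∈ top κ B k, w e = ∑ e ∈ top κ B k \ top κ B k', w e + ∑ e ∈ top κ B k', w e :=
      (sum_sdiff hsub).symm
    have h3 : ∑ e ∈ top κ B k \ top κ B k', w e ≤ ((k : ℝ) - k') * w m := by
      have hcd : ((top κ B k \ top κ B k').card : ℝ) ≤ (k : ℝ) - k' := by
        have h4 := card_sdiff_add_card_eq_card hsub
        have h5 : (top κ B k).card ≤ k := by rw [card_top hκ]; exact min_le_left _ _
        rw [hc'] at h4
        have h6 : (top κ B k \ top κ B k').card + k' ≤ k := by omega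
        have h7 : ((top κ B k \ top κ B k').card : ℝ) + k' ≤ k := by exact_mod_cast h6
        linarith
      calc ∑ e ∈ top κ B k \ top κ B k', w e ≤ ∑ e ∈ top κ B k \ top κ B k', w m := by
            apply sum_le_sum
            intro e he
            rw [mem_sdiff] at he
            apply hmono
            have he1 := mem_filter.1 he.1
            have hm1 := mem_filter.1 hm
            apply lt_of_rk_lt hκ he1.1
            have : k' ≤ rk κ B e := by
              by_contra hlt
              exact he.2 (mem_filter.2 ⟨he1.1, by omega⟩)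
            omega
        _ = ((top κ B k \ top κ B k').card : ℝ) * w m := by rw [sum_const, nsmul_eq_mul]
        _ ≤ _ := mul_le_mul_of_nonneg_right hcd (hw m)
    have hkk : (0 : ℝ) ≤ (k : ℝ) - k' := by
      have : (k' : ℝ) ≤ k := by exact_mod_cast hk
      linarith
    have hk'0 : (0 : ℝ) ≤ k' := by positivity
    have h8 : (k' : ℝ) * ∑ e ∈ top κ B k \ top κ B k', w e ≤
        ((k : ℝ) - k') * ∑ e ∈ top κ B k', w e := by
      calc (k' : ℝ) * ∑ e ∈ top κ B k \ top κ B k', w e ≤ k' * (((k : ℝ) - k') * w m) :=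
            mul_le_mul_of_nonneg_left h3 hk'0
        _ = ((k : ℝ) - k') * (k' * w m) := by ring
        _ ≤ _ := mul_le_mul_of_nonneg_left h1 hkk
    rw [h2, mul_add]
    linarith

end Top

section Pairs

variable {n : ℕ}

open Classical in
/-- number of orders with two given elements at two given positions -/
theorem card_pair {e f : Fin n} (hef : e ≠ f) {i j : Fin n} (hij : i ≠ j) :
    n * ((n - 1) * (univ.filter (fun σ : Equiv.Perm (Fin n) => σ i = e ∧ σ j = f)).card) =
      n.factorial := by
  set N : Fin n → Fin n → ℕ := fun a b =>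
    (univ.filter (fun σ : Equiv.Perm (Fin n) => σ a = e ∧ σ b = f)).card with hN
  -- fix the position of e
  have h1 : ∀ b, b ≠ i → N i b = N i j := by
    intro b hb
    apply Finset.card_equiv (Equiv.mulRight (Equiv.swap b j))
    intro σ
    simp only [mem_filter, mem_univ, true_and, Equiv.coe_mulRight, Equiv.Perm.coe_mul,
      Function.comp_apply, Equiv.swap_apply_right]
    rw [Equiv.swap_apply_of_ne_of_ne hb.symm hij]
  have h2 : ∑ b ∈ univ.erase i, N i b = (Yset i e).card := by
    have h3 : ∀ b, N i b = ∑ σ ∈ Yset i e, if σ b = f then 1 else 0 := by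
      intro b
      have h3' : ∑ σ ∈ Yset i e, (if σ b = f then 1 else 0) = ((Yset i e).filter (fun σ => σ b = f)).card :=
        (card_filter _ _).symm
      rw [h3']
      show (univ.filter (fun σ : Equiv.Perm (Fin n) => σ i = e ∧ σ b = f)).card = _
      congr 1
      ext σ
      simp [Yset]
    rw [sum_congr rfl fun b _ => h3 b, sum_comm]
    have h4 : ∀ σ ∈ Yset i e, (∑ b ∈ univ.erase i, if σ b = f then 1 else 0) = 1 := by
      intro σ hσ
      have hσ' : σ i = e := by simpa [Yset] using hσ
      rw [sum_eq_single (σ.symm f)]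
      · simp
      · intro b _ hb
        rw [if_neg]
        intro h
        exact hb (by rw [← h]; simp)
      · intro h
        exfalso
        apply h
        rw [mem_erase]
        refine ⟨?_, mem_univ _⟩
        intro h'
        apply hef
        rw [← hσ', ← h']
        simp
    rw [sum_congr rfl h4]
    simp
  have h5 : ∑ b ∈ univ.erase i, N i b = (n - 1) * N i j := by
    rw [sum_congr rfl (g := fun _ => N i j)]
    · rw [sum_const, card_erase_of_mem (mem_univ _), card_univ, Fintype.card_fin, smul_eq_mul]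
    · intro b hb
      exact h1 b (mem_erase.1 hb).1
  rw [← card_Yset i e, ← h2, h5]

open Classical in
/-- number of sampled elements of `T` -/
noncomputable def X (T : Finset (Fin n)) (t : ℕ) (σ : Equiv.Perm (Fin n)) : ℕ :=
  (T.filter (fun f => (σ.symm f).val < t)).card

open Classical in
theorem card_one (t : ℕ) (ht : t ≤ n) (hn : 0 < n) (e : Fin n) :
    ((univ.filter (fun σ : Equiv.Perm (Fin n) => (σ.symm e).val < t)).card : ℝ) =
      (n.factorial : ℝ) * (t / n) := by
  have h1 : (univ.filter (fun σ : Equiv.Perm (Fin n) => (σ.symm e).val < t)).card =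
      ∑ i ∈ univ.filter (fun i : Fin n => i.val < t), (Yset i e).card := by
    rw [← card_biUnion]
    · congr 1
      ext σ
      simp only [mem_filter, mem_univ, true_and, mem_biUnion, Yset]
      constructor
      · intro h; exact ⟨σ.symm e, h, by simp⟩
      · rintro ⟨i, hi, h⟩
        rw [← h]; simpa using hi
    · intro a _ b _ hab
      rw [Function.onFun, Finset.disjoint_left]
      intro σ ha hb
      simp only [mem_filter, mem_univ, true_and, Yset] at ha hb
      exact hab (σ.injective (ha.trans hb.symm))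
  have h2 : (univ.filter (fun i : Fin n => i.val < t)).card = t := by
    have : (univ.filter (fun i : Fin n => i.val < t)).card = (range t).card := by
      apply card_bij (fun i _ => i.val)
      · intro i hi; simpa using hi
      · intro i _ j _ h; exact Fin.ext h
      · intro j hj
        have := mem_range.1 hj
        exact ⟨⟨j, by omega⟩, by simpa using hj, rfl⟩
    rw [this, card_range]
  rw [h1]
  have h3 : ∀ i ∈ univ.filter (fun i : Fin n => i.val < t), ((Yset i e).card : ℝ) = n.factorial / n := by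
    intro i _
    have := card_Yset i e
    rw [eq_div_iff (by positivity), mul_comm]
    exact_mod_cast this
  rw [Nat.cast_sum, sum_congr rfl h3, sum_const, h2, nsmul_eq_mul]
  ring

open Classical in
theorem card_two (t : ℕ) (ht : t ≤ n) {e f : Fin n} (hef : e ≠ f) :
    ((univ.filter (fun σ : Equiv.Perm (Fin n) =>
      (σ.symm e).val < t ∧ (σ.symm f).val < t)).card : ℝ) ≤ (n.factorial : ℝ) * (t / n) ^ 2 := by
  have hn : 0 < n := Fin.pos e
  have hn2 : 2 ≤ n := by
    by_contra h
    have : n = 1 := by omega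
    subst this
    exact hef (Subsingleton.elim _ _)
  set A := (univ.filter (fun i : Fin n => i.val < t)) with hA
  have hAc : A.card = t := by
    have : A.card = (range t).card := by
      apply card_bij (fun i _ => i.val)
      · intro i hi; simpa [hA] using hi
      · intro i _ j _ h; exact Fin.ext h
      · intro j hj
        have := mem_range.1 hj
        exact ⟨⟨j, by omega⟩, by simpa [hA] using hj, rfl⟩
    rw [this, card_range]
  -- union over pairs of positions
  have h1 : (univ.filter (fun σ : Equiv.Perm (Fin n) =>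
      (σ.symm e).val < t ∧ (σ.symm f).val < t)).card ≤
      ∑ q ∈ A.offDiag, (univ.filter (fun σ : Equiv.Perm (Fin n) => σ q.1 = e ∧ σ q.2 = f)).card := by
    refine (card_le_card ?_).trans card_biUnion_le
    intro σ hσ
    simp only [mem_filter, mem_univ, true_and] at hσ
    refine mem_biUnion.2 ⟨(σ.symm e, σ.symm f), ?_, ?_⟩
    · rw [mem_offDiag]
      refine ⟨by simpa [hA] using hσ.1, by simpa [hA] using hσ.2, ?_⟩
      intro h
      exact hef (σ.symm.injective h)
    · simp
  have h2 : ∀ q ∈ A.offDiag, ((univ.filter (fun σ : Equiv.Perm (Fin n) =>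
      σ q.1 = e ∧ σ q.2 = f)).card : ℝ) = (n.factorial : ℝ) / (n * (n - 1)) := by
    intro q hq
    have h3 := card_pair hef (mem_offDiag.1 hq).2.2
    have hn1 : ((n - 1 : ℕ) : ℝ) = (n : ℝ) - 1 := by
      rw [Nat.cast_sub (by omega)]; simp
    have hn1pos : (0 : ℝ) < (n : ℝ) - 1 := by
      have : (2 : ℝ) ≤ n := by exact_mod_cast hn2
      linarith
    have hnpos : (0 : ℝ) < n := by exact_mod_cast hn
    rw [eq_div_iff (by positivity), ← hn1]
    have h4 : (n : ℝ) * (((n - 1 : ℕ) : ℝ) * ((univ.filter (fun σ : Equiv.Perm (Fin n) =>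
      σ q.1 = e ∧ σ q.2 = f)).card : ℝ)) = n.factorial := by exact_mod_cast h3
    rw [← h4]; ring
  have h5 : ((univ.filter (fun σ : Equiv.Perm (Fin n) =>
      (σ.symm e).val < t ∧ (σ.symm f).val < t)).card : ℝ) ≤
      (t * t - t : ℝ) * ((n.factorial : ℝ) / (n * (n - 1))) := by
    refine (Nat.cast_le.2 h1).trans ?_
    rw [Nat.cast_sum, sum_congr rfl h2, sum_const, offDiag_card, hAc, nsmul_eq_mul]
    have : ((t * t - t : ℕ) : ℝ) = (t * t - t : ℝ) := by
      rw [Nat.cast_sub (Nat.le_mul_self t)]
      push_cast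
      ring
    rw [this]
  refine h5.trans ?_
  have hn1pos : (0 : ℝ) < (n : ℝ) - 1 := by
    have : (2 : ℝ) ≤ n := by exact_mod_cast hn2
    linarith
  have hnpos : (0 : ℝ) < n := by exact_mod_cast hn
  have htn : (t : ℝ) ≤ n := by exact_mod_cast ht
  have ht0 : (0 : ℝ) ≤ t := by positivity
  rw [mul_div_assoc', div_le_iff₀ (by positivity)]
  have h6 : (n.factorial : ℝ) * (t / n) ^ 2 * (n * (n - 1)) = n.factorial * (t ^ 2 * (n - 1) / n) := by
    field_simp
  rw [h6, mul_comm (t * t - t : ℝ)]
  apply mul_le_mul_of_nonneg_left _ (by positivity)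
  rw [le_div_iff₀ hnpos]
  nlinarith

open Classical in
/-- second moment of the number of sampled elements -/
theorem variance (T : Finset (Fin n)) (t : ℕ) (ht : t ≤ n) (hn : 0 < n) :
    ∑ σ : Equiv.Perm (Fin n), ((X T t σ : ℝ) - T.card * (t / n)) ^ 2 ≤
      n.factorial * (T.card * (t / n)) := by
  set q : ℝ := (t : ℝ) / n with hq
  set Y : Fin n → Equiv.Perm (Fin n) → ℝ := fun f σ => if (σ.symm f).val < t then 1 else 0 with hY
  have hX : ∀ σ, (X T t σ : ℝ) = ∑ f ∈ T, Y f σ := by
    intro σ
    unfold X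
    rw [card_filter]
    push_cast
    rfl
  have h1 : ∀ f, ∑ σ : Equiv.Perm (Fin n), Y f σ = n.factorial * q := by
    intro f
    rw [hY, ← card_one t ht hn f, card_filter]
    push_cast
    rfl
  have h2 : ∀ e f, ∑ σ : Equiv.Perm (Fin n), Y e σ * Y f σ ≤
      if e = f then n.factorial * q else n.factorial * q ^ 2 := by
    intro e f
    by_cases hef : e = f
    · rw [if_pos hef, ← hef, ← h1 e]
      apply le_of_eq
      apply sum_congr rfl
      intro σ _
      rw [hY]
      simp only
      split_ifs <;> simp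
    · rw [if_neg hef]
      refine le_trans (le_of_eq ?_) (card_two t ht hef)
      rw [card_filter]
      push_cast
      apply sum_congr rfl
      intro σ _
      rw [hY]
      simp only
      by_cases ha : (σ.symm e).val < t <;> by_cases hb : (σ.symm f).val < t <;> simp [ha, hb]
  have h3 : ∑ σ : Equiv.Perm (Fin n), (1 : ℝ) = n.factorial := by
    simp [Fintype.card_perm]
  have h4 : ∑ σ : Equiv.Perm (Fin n), ((X T t σ : ℝ) - T.card * q) ^ 2 =
      (∑ e ∈ T, ∑ f ∈ T, ∑ σ : Equiv.Perm (Fin n), Y e σ * Y f σ)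
      - n.factorial * (T.card * q) ^ 2 := by
    have h5 : ∀ σ : Equiv.Perm (Fin n), ((X T t σ : ℝ) - T.card * q) ^ 2 =
        (∑ e ∈ T, ∑ f ∈ T, Y e σ * Y f σ) - 2 * (T.card * q) * (∑ f ∈ T, Y f σ)
        + (T.card * q) ^ 2 * 1 := by
      intro σ
      rw [hX σ, ← sum_mul_sum]
      ring
    rw [sum_congr rfl fun σ _ => h5 σ, sum_add_distrib, sum_sub_distrib, ← mul_sum, ← mul_sum, h3]
    have h6 : ∑ σ : Equiv.Perm (Fin n), ∑ f ∈ T, Y f σ = T.card * (n.factorial * q) := by
      rw [sum_comm, sum_congr rfl fun f _ => h1 f, sum_const, nsmul_eq_mul]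
    rw [h6]
    have h7 : ∑ σ : Equiv.Perm (Fin n), ∑ e ∈ T, ∑ f ∈ T, Y e σ * Y f σ =
        ∑ e ∈ T, ∑ f ∈ T, ∑ σ : Equiv.Perm (Fin n), Y e σ * Y f σ := by
      rw [sum_comm]
      apply sum_congr rfl
      intro e _
      rw [sum_comm]
    rw [h7]
    ring
  rw [h4]
  have h8 : ∑ e ∈ T, ∑ f ∈ T, ∑ σ : Equiv.Perm (Fin n), Y e σ * Y f σ ≤
      ∑ e ∈ T, ∑ f ∈ T, (if e = f then n.factorial * q else n.factorial * q ^ 2) :=
    sum_le_sum fun e _ => sum_le_sum fun f _ => h2 e f
  have hq0 : 0 ≤ q := by positivity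
  have h9 : ∑ e ∈ T, ∑ f ∈ T, (if e = f then (n.factorial : ℝ) * q else n.factorial * q ^ 2) ≤
      ∑ e ∈ T, ∑ f ∈ T, ((if e = f then (n.factorial : ℝ) * q else 0) + n.factorial * q ^ 2) := by
    apply sum_le_sum
    intro e _
    apply sum_le_sum
    intro f _
    split_ifs
    · have : 0 ≤ (n.factorial : ℝ) * q ^ 2 := by positivity
      linarith
    · simp
  have h10 : ∑ e ∈ T, ∑ f ∈ T, ((if e = f then (n.factorial : ℝ) * q else 0) + n.factorial * q ^ 2)
      = T.card * (n.factorial * q) + n.factorial * (T.card * q) ^ 2 := by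
    have : ∀ e ∈ T, ∑ f ∈ T, ((if e = f then (n.factorial : ℝ) * q else 0) + n.factorial * q ^ 2) =
        n.factorial * q + T.card * (n.factorial * q ^ 2) := by
      intro e he
      rw [sum_add_distrib, sum_const, nsmul_eq_mul, Finset.sum_ite_eq, if_pos he]
    rw [sum_congr rfl this, sum_const, nsmul_eq_mul]
    ring
  rw [h10] at h9
  have : (n.factorial : ℝ) * (T.card * q) = T.card * (n.factorial * q) := by ring
  rw [this]
  linarith

open Classical in
theorem chebyshev (T : Finset (Fin n)) (t : ℕ) (ht : t ≤ n) (hn : 0 < n) {s : ℝ} (hs : 0 < s) :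
    ((univ.filter (fun σ : Equiv.Perm (Fin n) =>
      s ≤ |(X T t σ : ℝ) - T.card * (t / n)|)).card : ℝ) ≤
      n.factorial * (T.card * (t / n) / s ^ 2) := by
  have hv := variance T t ht hn
  have hre : (n.factorial : ℝ) * (T.card * (t / n) / s ^ 2) =
      (n.factorial : ℝ) * (T.card * (t / n)) / s ^ 2 := by ring
  rw [hre, le_div_iff₀ (by positivity)]
  refine le_trans ?_ hv
  calc ((univ.filter (fun σ : Equiv.Perm (Fin n) =>
      s ≤ |(X T t σ : ℝ) - T.card * (t / n)|)).card : ℝ) * s ^ 2
      = ∑ σ ∈ univ.filter (fun σ : Equiv.Perm (Fin n) =>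
      s ≤ |(X T t σ : ℝ) - T.card * (t / n)|), s ^ 2 := by rw [sum_const, nsmul_eq_mul]
    _ ≤ ∑ σ ∈ univ.filter (fun σ : Equiv.Perm (Fin n) =>
      s ≤ |(X T t σ : ℝ) - T.card * (t / n)|), ((X T t σ : ℝ) - T.card * (t / n)) ^ 2 := by
        apply sum_le_sum
        intro σ hσ
        have h := (mem_filter.1 hσ).2
        rw [← sq_abs ((X T t σ : ℝ) - T.card * (t / n))]
        exact pow_le_pow_left₀ hs.le h 2
    _ ≤ _ := sum_le_sum_of_subset_of_nonneg (filter_subset _ _) fun σ _ _ => sq_nonneg _

end Pairs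

end Pool.Agent.Work.MP_3bf421_lc_SW
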