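import Pool.Agent.Work.MP_3bf421_lc_SW.Thr

set_option autoImplicit false

/-!
The threshold rule for large capacities: definition, feasibility, value.
-/

namespace Pool.Agent.Work.MP_3bf421_lc_SW

open Finset

section Rule

variable {α : Type*} [LinearOrder α] {n : ℕ}

open Classical in
/-- positions after the sample that beat the threshold -/
noncomputable def cand (κ : Fin n → α) (P : Fin n → Prop) (t m : ℕ) : Finset (Fin n) :=
  univ.filter (fun j => t ≤ j.val ∧ P j ∧ rk κ (bef P t) j < m)

open Classical in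
/-- the threshold rule -/
def thr (κ : Fin n → α) (P : Fin n → Prop) (t m k : ℕ) (i : Fin n) : Prop :=
  i ∈ cand κ P t m ∧ ((cand κ P t m).filter (fun j => j < i)).card < k

open Classical in
theorem thr_card_le (κ : Fin n → α) (P : Fin n → Prop) (t m k : ℕ) :
    (univ.filter (fun i => thr κ P t m k i)).card ≤ k := by
  have h1 : univ.filter (fun i => thr κ P t m k i) =
      top (fun i : Fin n => OrderDual.toDual i) (cand κ P t m) k := by
    ext i
    simp only [mem_filter, mem_univ, true_and, thr, top, rk, OrderDual.toDual_lt_toDual]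
  rw [h1, card_top (fun a b h => OrderDual.toDual_inj.1 h)]
  exact min_le_left _ _

theorem cand_congr {κ κ' : Fin n → α} {P P' : Fin n → Prop} {t m : ℕ} {i : Fin n}
    (h1 : ∀ j, j ≤ i → κ j = κ' j) (h2 : ∀ j, j ≤ i → (P j ↔ P' j)) (j : Fin n) (hj : j ≤ i) :
    j ∈ cand κ P t m ↔ j ∈ cand κ' P' t m := by
  classical
  simp only [cand, mem_filter, mem_univ, true_and]
  by_cases ht : t ≤ j.val
  · have hb : bef P t = bef P' t := by
      ext x
      rw [mem_bef, mem_bef]
      constructor
      · rintro ⟨h, h'⟩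
        exact ⟨h, (h2 x ((Fin.le_def.2 (by omega : x.val ≤ j.val)).trans hj)).1 h'⟩
      · rintro ⟨h, h'⟩
        exact ⟨h, (h2 x ((Fin.le_def.2 (by omega : x.val ≤ j.val)).trans hj)).2 h'⟩
    have hr : rk κ (bef P t) j = rk κ' (bef P' t) j := by
      unfold rk
      rw [hb]
      congr 1
      apply filter_congr
      intro f hf
      rw [mem_bef] at hf
      rw [h1 j hj, h1 f ((Fin.le_def.2 (by omega : f.val ≤ j.val)).trans hj)]
    rw [h2 j hj, hr]
  · simp [ht]

theorem thr_congr {κ κ' : Fin n → α} {P P' : Fin n → Prop} {t m k : ℕ} {i : Fin n}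
    (h1 : ∀ j, j ≤ i → κ j = κ' j) (h2 : ∀ j, j ≤ i → (P j ↔ P' j)) :
    thr κ P t m k i ↔ thr κ' P' t m k i := by
  classical
  unfold thr
  rw [cand_congr h1 h2 i le_rfl]
  have : (cand κ P t m).filter (fun j => j < i) = (cand κ' P' t m).filter (fun j => j < i) := by
    ext j
    rw [mem_filter, mem_filter]
    constructor
    · rintro ⟨h, h'⟩; exact ⟨(cand_congr h1 h2 j h'.le).1 h, h'⟩
    · rintro ⟨h, h'⟩; exact ⟨(cand_congr h1 h2 j h'.le).2 h, h'⟩
  rw [this]

open Classical in
/-- lower bound for the probability that an element of the top `k'` is selected -/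
theorem thr_value (κ : Fin n → α) (hκ : Function.Injective κ) (P : Fin n → Prop)
    {t m k k' g : ℕ} (ht : t ≤ n) (ht0 : 0 < t) (hk' : k' + 2 * g = k) (hg : 0 < g)
    (hm : m = ⌈((k : ℝ) - g) * (t / n)⌉₊) (e : Fin n) (hP : P e)
    (hr : rk κ (univ.filter P) e < k') :
    (n.factorial : ℝ) * (1 - t / n - 2 * (k / ((g : ℝ) ^ 2 * (t / n)))) ≤
      ((univ.filter (fun σ : Equiv.Perm (Fin n) =>
        thr (κ ∘ σ) (P ∘ σ) t m k (σ.symm e))).card : ℝ) := by
  have hn : 0 < n := Fin.pos e
  have hnR : (0 : ℝ) < n := by exact_mod_cast hn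
  have htR : (0 : ℝ) < t := by exact_mod_cast ht0
  have hgR : (0 : ℝ) < g := by exact_mod_cast hg
  set q : ℝ := (t : ℝ) / n with hq
  have hq0 : 0 < q := by positivity
  set B : Finset (Fin n) := univ.filter P with hB
  have heB : e ∈ B := by simp [hB, hP]
  have hkR : (k : ℝ) = k' + 2 * g := by exact_mod_cast hk'.symm
  -- bad events
  set E0 := univ.filter (fun σ : Equiv.Perm (Fin n) => (σ.symm e).val < t) with hE0
  set E1 := univ.filter (fun σ : Equiv.Perm (Fin n) =>
    (g : ℝ) * q ≤ |(X (top κ B k') t σ : ℝ) - (top κ B k').card * q|) with hE1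
  set E2 := univ.filter (fun σ : Equiv.Perm (Fin n) =>
    (g : ℝ) * q ≤ |(X (top κ B k) t σ : ℝ) - (top κ B k).card * q|) with hE2
  set G := (univ.filter (fun σ : Equiv.Perm (Fin n) =>
        thr (κ ∘ σ) (P ∘ σ) t m k (σ.symm e))) with hG
  have hcover : (univ : Finset (Equiv.Perm (Fin n))) ⊆ G ∪ (E0 ∪ (E1 ∪ E2)) := by
    intro σ _
    by_contra hnot
    simp only [mem_union, not_or] at hnot
    obtain ⟨hG', h0, h1, h2⟩ := hnot
    have h0' : t ≤ (σ.symm e).val := by
      simpa [hE0] using h0
    have h1' : |(X (top κ B k') t σ : ℝ) - (top κ B k').card * q| < g * q := by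
      simpa [hE1] using h1
    have h2' : |(X (top κ B k) t σ : ℝ) - (top κ B k).card * q| < g * q := by
      simpa [hE2] using h2
    apply hG'
    rw [hG, mem_filter]
    refine ⟨mem_univ _, ?_⟩
    -- relation between ranks in the sample and X
    have hA : nrk κ P σ t e < m := by
      have h3 : nrk κ P σ t e ≤ X (top κ B k') t σ := by
        unfold nrk X
        apply card_le_card
        intro f hf
        simp only [mem_filter, mem_univ, true_and] at hf ⊢
        refine ⟨?_, hf.1⟩
        have hfB : f ∈ B := by simp [hB, hf.2.1]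
        refine mem_filter.2 ⟨hfB, ?_⟩
        have := rk_strictAnti (B := B) hfB hf.2.2
        omega
      have h4 : (X (top κ B k') t σ : ℝ) < ((k : ℝ) - g) * q := by
        have h5 : ((top κ B k').card : ℝ) ≤ k' := by
          have : (top κ B k').card ≤ k' := by rw [card_top hκ]; exact min_le_left _ _
          exact_mod_cast this
        have h6 := (abs_lt.1 h1').2
        have h7 : ((top κ B k').card : ℝ) * q ≤ k' * q := mul_le_mul_of_nonneg_right h5 hq0.le
        rw [hkR]
        nlinarith
      have h8 : (nrk κ P σ t e : ℝ) < m := by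
        rw [hm]
        calc (nrk κ P σ t e : ℝ) ≤ X (top κ B k') t σ := by exact_mod_cast h3
          _ < ((k : ℝ) - g) * q := h4
          _ ≤ _ := Nat.le_ceil _
      exact_mod_cast h8
    have hcand : ∀ i : Fin n, i ∈ cand (κ ∘ σ) (P ∘ σ) t m ↔
        t ≤ i.val ∧ P (σ i) ∧ nrk κ P σ t (σ i) < m := by
      intro i
      simp only [cand, mem_filter, mem_univ, true_and, rk_eq_nrk]
      rfl
    have hecand : σ.symm e ∈ cand (κ ∘ σ) (P ∘ σ) t m := by
      rw [hcand]
      refine ⟨h0', ?_, ?_⟩
      · rw [Equiv.apply_symm_apply]; exact hP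
      · rw [Equiv.apply_symm_apply]; exact hA
    refine ⟨hecand, ?_⟩
    -- at most k - 1 earlier candidates
    have hsub : (cand (κ ∘ σ) (P ∘ σ) t m).filter (fun j => j < σ.symm e) ⊆
        (cand (κ ∘ σ) (P ∘ σ) t m).erase (σ.symm e) := by
      intro j hj
      rw [mem_filter] at hj
      exact mem_erase.2 ⟨hj.2.ne, hj.1⟩
    refine lt_of_le_of_lt (card_le_card hsub) ?_
    rw [card_erase_of_mem hecand]
    have hpos : 0 < (cand (κ ∘ σ) (P ∘ σ) t m).card := card_pos.2 ⟨_, hecand⟩
    suffices h : (cand (κ ∘ σ) (P ∘ σ) t m).card ≤ k by omega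
    by_cases hBk : B.card ≤ k
    · refine le_trans (card_le_card_of_injOn σ ?_ σ.injective.injOn) hBk
      intro j hj
      rw [mem_coe, hcand] at hj
      rw [mem_coe, hB, mem_filter]
      exact ⟨mem_univ _, hj.2.1⟩
    · push Not at hBk
      have hTk : (top κ B k).card = k := by rw [card_top hκ]; exact min_eq_left hBk.le
      have hX : m ≤ X (top κ B k) t σ := by
        rw [hm, Nat.ceil_le]
        have h6 := (abs_lt.1 h2').1
        rw [hTk] at h6
        nlinarith
      refine le_trans (card_le_card_of_injOn σ ?_ σ.injective.injOn) hTk.le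
      intro j hj
      rw [mem_coe, hcand] at hj
      rw [mem_coe]
      have hjB : σ j ∈ B := by rw [hB, mem_filter]; exact ⟨mem_univ _, hj.2.1⟩
      refine mem_filter.2 ⟨hjB, ?_⟩
      by_contra hge
      push Not at hge
      have h7 : X (top κ B k) t σ ≤ nrk κ P σ t (σ j) := by
        unfold nrk X
        apply card_le_card
        intro f hf
        rw [mem_filter] at hf
        have hfT := mem_filter.1 hf.1
        rw [mem_filter]
        refine ⟨mem_univ _, hf.2, ?_, ?_⟩
        · have := hfT.1
          rw [hB, mem_filter] at this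
          exact this.2
        · apply lt_of_rk_lt hκ hjB
          omega
      omega
  -- counting
  have hcount : (n.factorial : ℝ) ≤ G.card + (E0.card + (E1.card + E2.card)) := by
    have h1 := card_le_card hcover
    rw [card_univ, Fintype.card_perm, Fintype.card_fin] at h1
    have h2 : (G ∪ (E0 ∪ (E1 ∪ E2))).card ≤ G.card + (E0.card + (E1.card + E2.card)) :=
      (card_union_le _ _).trans (Nat.add_le_add_left ((card_union_le _ _).trans
        (Nat.add_le_add_left (card_union_le _ _) _)) _)
    exact_mod_cast h1.trans h2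
  have hE0c : (E0.card : ℝ) = n.factorial * q := card_one t ht hn e
  have hfac : (0 : ℝ) < n.factorial := by positivity
  have hgq : 0 < (g : ℝ) * q := by positivity
  have hbound : ∀ j, j ≤ k → ((univ.filter (fun σ : Equiv.Perm (Fin n) =>
    (g : ℝ) * q ≤ |(X (top κ B j) t σ : ℝ) - (top κ B j).card * q|)).card : ℝ) ≤
      n.factorial * (k / ((g : ℝ) ^ 2 * q)) := by
    intro j hj
    refine (chebyshev (top κ B j) t ht hn hgq).trans ?_
    apply mul_le_mul_of_nonneg_left _ hfac.le
    have h1 : ((top κ B j).card : ℝ) ≤ k := by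
      have : (top κ B j).card ≤ k := by
        rw [card_top hκ]; exact (min_le_left _ _).trans hj
      exact_mod_cast this
    rw [div_le_div_iff₀ (by positivity) (by positivity)]
    have h2 : ((top κ B j).card : ℝ) * (t / n) * ((g : ℝ) ^ 2 * q) =
        (top κ B j).card * ((g : ℝ) * q) ^ 2 := by rw [← hq]; ring
    rw [h2]
    exact mul_le_mul_of_nonneg_right h1 (by positivity)
  have hE1c := hbound k' (by omega)
  have hE2c := hbound k le_rfl
  rw [← hE1] at hE1c
  rw [← hE2] at hE2c
  have : (n.factorial : ℝ) * (1 - q - 2 * (k / ((g : ℝ) ^ 2 * q))) =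
      n.factorial - n.factorial * q - 2 * (n.factorial * (k / ((g : ℝ) ^ 2 * q))) := by ring
  rw [this]
  linarith

end Rule

end Pool.Agent.Work.MP_3bf421_lc_SW
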